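import Pool.Agent.Q98.SPN.Stm

/-!
# Project SPN (MP_1157dd_an): job CNT (helper162), number of arrays with bounded sum
-/

set_option autoImplicit false

open Finset

namespace Pool.Agent.Q98.SPN

open Pool.Agent.H172R2.GS (arrays)

theorem CNT_ok : S_CNT := by
  intro ι _ _ q z hz hz2
  have hz1 : z ≤ 1 := by linarith
  have h1 : ((arrays ι q).card : ℝ) * z ^ q ≤ ∑ r ∈ arrays ι q, ∏ i, z ^ r i := by
    rw [← nsmul_eq_mul, ← Finset.sum_const]
    refine Finset.sum_le_sum fun r hr => ?_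
    rw [Finset.prod_pow_eq_pow_sum]
    exact pow_le_pow_of_le_one hz.le hz1 (Finset.mem_filter.1 hr).2
  have h2 : ∑ r ∈ arrays ι q, ∏ i, z ^ r i ≤
      ∑ r ∈ Fintype.piFinset fun _ : ι => range (q + 1), ∏ i, z ^ r i := by
    refine Finset.sum_le_sum_of_subset_of_nonneg (Finset.filter_subset _ _) fun r _ _ => ?_
    exact Finset.prod_nonneg fun i _ => pow_nonneg hz.le _
  have h3 : ∑ r ∈ Fintype.piFinset fun _ : ι => range (q + 1), ∏ i, z ^ r i =
      ∏ _i : ι, ∑ j ∈ range (q + 1), z ^ j := by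
    rw [Finset.prod_univ_sum]
  have h4 : ∑ j ∈ range (q + 1), z ^ j ≤ Real.exp (2 * z) := by
    have h5 := mul_neg_geom_sum z (q + 1)
    have h6 : 0 ≤ z ^ (q + 1) := pow_nonneg hz.le _
    have h7 : 0 ≤ ∑ j ∈ range (q + 1), z ^ j := Finset.sum_nonneg fun j _ => pow_nonneg hz.le _
    have h8 : 1 + 2 * z ≤ Real.exp (2 * z) := by
      have := Real.add_one_le_exp (2 * z)
      linarith
    refine le_trans ?_ h8
    nlinarith [mul_nonneg h7 (show (0 : ℝ) ≤ z * (1 - 2 * z) from mul_nonneg hz.le (by linarith)),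
      mul_nonneg h6 (show (0 : ℝ) ≤ 1 + 2 * z by linarith)]
  have h9 : 0 ≤ ∑ j ∈ range (q + 1), z ^ j := Finset.sum_nonneg fun j _ => pow_nonneg hz.le _
  calc ((arrays ι q).card : ℝ) * z ^ q ≤ _ := h1
    _ ≤ _ := h2
    _ = _ := h3
    _ = (∑ j ∈ range (q + 1), z ^ j) ^ Fintype.card ι := by
        rw [Finset.prod_const, Finset.card_univ]
    _ ≤ Real.exp (2 * z) ^ Fintype.card ι := pow_le_pow_left₀ h9 h4 _
    _ = Real.exp (2 * z * Fintype.card ι) := by
        rw [← Real.exp_nat_mul]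
        congr 1
        ring

end Pool.Agent.Q98.SPN
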