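import Pool.Agent.Q98.SPN.Star

set_option autoImplicit false

open scoped Matrix.Norms.L2Operator Matrix
open Finset

namespace Pool.Agent.Q98.SPN

/-- the inclusion of the real matrices, as a map of real algebras -/
noncomputable def cpxMap (m : Type) [Fintype m] [DecidableEq m] :
    Matrix m m ℝ →ₐ[ℝ] Matrix m m ℂ := (Algebra.ofId ℝ ℂ).mapMatrix

theorem cpxMap_apply {m : Type} [Fintype m] [DecidableEq m] (x : Matrix m m ℝ) :
    cpxMap m x = x.map (fun t : ℝ => (t : ℂ)) := rfl

theorem CPX_ok : S_CPX := by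
  intro m _ _ 𝒜 h𝒜
  classical
  set s : Set (Matrix m m ℂ) := cpxMap m '' (𝒜 : Set (Matrix m m ℝ)) with hs
  have hstar : star s = s := by
    have hsub : star s ⊆ s := by
      rintro x hx
      obtain ⟨y, hy, hxy⟩ := hx
      refine ⟨yᵀ, h𝒜 y hy, ?_⟩
      have : x = star (cpxMap m y) := by rw [hxy, star_star]
      rw [this, cpxMap_apply, cpxMap_apply]
      ext i j
      simp [Matrix.star_apply]
    refine Set.Subset.antisymm hsub ?_
    intro x hx
    have : star x ∈ star s := by simpa using hx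
    exact hsub this
  refine ⟨StarAlgebra.adjoin ℂ s, fun x hx => StarAlgebra.subset_adjoin ℂ s ⟨x, hx, rfl⟩, ?_⟩
  have hclosure : (Submonoid.closure s : Set (Matrix m m ℂ)) = s := by
    have : s = ((𝒜.toSubmonoid.map (cpxMap m : Matrix m m ℝ →* Matrix m m ℂ) : Submonoid _) :
        Set (Matrix m m ℂ)) := by
      rw [Submonoid.coe_map]; rfl
    rw [this, Submonoid.closure_eq]
  have hspan : Subalgebra.toSubmodule (StarAlgebra.adjoin ℂ s).toSubalgebra =
      Submodule.span ℂ s := by
    rw [StarAlgebra.adjoin_toSubalgebra, hstar, Set.union_self, Algebra.adjoin_eq_span, hclosure]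
  set b := Module.finBasis ℝ 𝒜 with hb
  have hle : Submodule.span ℂ s ≤
      Submodule.span ℂ (Set.range fun i => cpxMap m (b i : Matrix m m ℝ)) := by
    rw [Submodule.span_le]
    rintro x ⟨y, hy, rfl⟩
    have hy' : (⟨y, hy⟩ : 𝒜) = ∑ i, b.repr ⟨y, hy⟩ i • b i := (b.sum_repr _).symm
    have hy2 : y = ∑ i, b.repr ⟨y, hy⟩ i • (b i : Matrix m m ℝ) := by
      have := congrArg (Subtype.val) hy'
      rw [← Subalgebra.coe_val, map_sum] at this
      simpa using this
    rw [hy2, map_sum]
    refine Submodule.sum_mem _ fun i _ => ?_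
    rw [map_smul]
    have : b.repr ⟨y, hy⟩ i • cpxMap m (b i : Matrix m m ℝ) =
      ((b.repr ⟨y, hy⟩ i : ℝ) : ℂ) • cpxMap m (b i : Matrix m m ℝ) := by
      ext; simp
    rw [this]
    exact Submodule.smul_mem _ _ (Submodule.subset_span ⟨i, rfl⟩)
  calc Module.finrank ℂ (StarAlgebra.adjoin ℂ s)
      = Module.finrank ℂ (Submodule.span ℂ s) := by
        rw [← hspan]; rfl
    _ ≤ Module.finrank ℂ (Submodule.span ℂ (Set.range fun i => cpxMap m (b i : Matrix m m ℝ))) :=
        Submodule.finrank_mono hle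
    _ ≤ Fintype.card (Fin (Module.finrank ℝ 𝒜)) := finrank_range_le_card _
    _ = Module.finrank ℝ 𝒜 := Fintype.card_fin _

end Pool.Agent.Q98.SPN
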