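import Pool.Agent.Q98.SPN.Stm

/-!
# Project SPN (MP_1157dd_an): job LR, nets of low rank matrices (from NET)
-/

set_option autoImplicit false

open scoped Matrix.Norms.L2Operator Matrix
open Finset

namespace Pool.Agent.Q98.SPN

theorem LR_finrank (d r : ℕ) : Module.finrank ℝ (Matrix (Fin d) (Fin r) ℂ) = 2 * (d * r) := by
  rw [finrank_real_of_complex, Module.finrank_matrix]
  simp

theorem LR_ok (h : S_NET) : S_LR := by
  intro d r k s hs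
  have hk : (0 : ℝ) < 2 ^ (k + 1) := by positivity
  have e2 : (2 : ℝ) ^ (2 * k + 2) = 2 ^ (k + 1) * 2 ^ (k + 1) := by
    rw [← pow_add, show 2 * k + 2 = k + 1 + (k + 1) by ring]
  have e3 : (2 : ℝ) ^ (2 * k + 3) = 2 ^ (k + 2) * 2 ^ (k + 1) := by
    rw [← pow_add, show 2 * k + 3 = k + 2 + (k + 1) by ring]
  have e4 : (2 : ℝ) ^ (k + 1) = 2 ^ k * 2 := pow_succ 2 k
  obtain ⟨F1, hF1c, hF1⟩ := h (Matrix (Fin d) (Fin r) ℂ) (2 * k + 2) (s / 2 ^ (k + 1))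
    (by positivity)
  obtain ⟨F2, hF2c, hF2⟩ := h (Matrix (Fin d) (Fin r) ℂ) (2 * k + 3) (1 / 2 ^ (2 * k + 3))
    (by positivity)
  have hfr := LR_finrank d r
  classical
  refine ⟨Finset.image (fun p : Matrix (Fin d) (Fin r) ℂ × Matrix (Fin d) (Fin r) ℂ =>
    p.1 * p.2ᴴ) (F1 ×ˢ F2), ?_, ?_⟩
  · refine Finset.card_image_le.trans ?_
    rw [Finset.card_product]
    refine (Nat.mul_le_mul hF1c hF2c).trans ?_
    rw [← pow_add]
    refine Nat.pow_le_pow_right (by norm_num) (le_of_eq ?_)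
    have e1 : ∀ x : ℕ, x = 2 * (d * r) →
        x * (2 * k + 2) + x * (2 * k + 3) = 2 * (d * r) * (4 * k + 5) := by
      rintro x rfl
      ring
    exact e1 _ hfr
  · intro W V hW hV
    obtain ⟨W', hW'F, hW'⟩ := hF1 W (by
      calc ‖W‖ ≤ 2 ^ (k + 1) * s := hW
        _ = 2 ^ (2 * k + 2) * (s / 2 ^ (k + 1)) := by
          rw [e2]
          field_simp)
    obtain ⟨V', hV'F, hV'⟩ := hF2 V (by
      calc ‖V‖ ≤ 1 := hV
        _ = 2 ^ (2 * k + 3) * (1 / 2 ^ (2 * k + 3)) := by field_simp)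
    refine ⟨W' * V'ᴴ, Finset.mem_image.mpr ⟨(W', V'), Finset.mem_product.mpr ⟨hW'F, hV'F⟩, rfl⟩, ?_⟩
    have e : W * Vᴴ - W' * V'ᴴ = (W - W') * Vᴴ + W' * (V - V')ᴴ := by
      rw [Matrix.conjTranspose_sub, Matrix.sub_mul, Matrix.mul_sub]
      abel
    have h1 : s / 2 ^ (k + 1) ≤ 2 ^ (k + 1) * s := by
      rw [div_le_iff₀ hk]
      have h2 : (1 : ℝ) ≤ 2 ^ (k + 1) := one_le_pow₀ (by norm_num)
      have h3 : (1 : ℝ) ≤ 2 ^ (k + 1) * 2 ^ (k + 1) := by nlinarith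
      nlinarith
    have hWn : ‖W'‖ ≤ 2 ^ (k + 2) * s := by
      have h4 : ‖W'‖ ≤ ‖W‖ + ‖W - W'‖ := by
        have h5 := norm_sub_le W (W - W')
        rwa [sub_sub_cancel] at h5
      calc ‖W'‖ ≤ 2 ^ (k + 1) * s + 2 ^ (k + 1) * s := by linarith
        _ = 2 ^ (k + 2) * s := by rw [pow_succ (2 : ℝ) (k + 1)]; ring
    have hVc : ‖Vᴴ‖ ≤ 1 := by
      rw [Matrix.l2_opNorm_conjTranspose]
      exact hV
    have hVc' : ‖(V - V')ᴴ‖ ≤ 1 / 2 ^ (2 * k + 3) := by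
      rw [Matrix.l2_opNorm_conjTranspose]
      exact hV'
    rw [e]
    calc ‖(W - W') * Vᴴ + W' * (V - V')ᴴ‖
        ≤ ‖(W - W') * Vᴴ‖ + ‖W' * (V - V')ᴴ‖ := norm_add_le _ _
      _ ≤ ‖W - W'‖ * ‖Vᴴ‖ + ‖W'‖ * ‖(V - V')ᴴ‖ :=
          add_le_add (Matrix.l2_opNorm_mul _ _) (Matrix.l2_opNorm_mul _ _)
      _ ≤ s / 2 ^ (k + 1) * 1 + 2 ^ (k + 2) * s * (1 / 2 ^ (2 * k + 3)) :=
          add_le_add (mul_le_mul hW' hVc (norm_nonneg _) (by positivity))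
            (mul_le_mul hWn hVc' (norm_nonneg _) (by positivity))
      _ = s / 2 ^ k := by
          rw [e3, e4]
          field_simp
          ring

end Pool.Agent.Q98.SPN
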