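import Pool.Agent.Q98.SPN.Star

set_option autoImplicit false

open scoped Matrix.Norms.L2Operator Matrix
open Finset

namespace Pool.Agent.Q98.SPN

theorem MAINC_ok (h1 : S_MAIN) (h2 : S_SMOD) (h3 : S_ISO) : S_MAINC := by
  intro m _ _ 𝒜 N hN hfr J _ _ A hA hA1
  obtain ⟨k, d, Ψ, -, hsum, hstar⟩ := h2 m 𝒜
  have hiso := h3 m 𝒜 k d Ψ hstar
  obtain ⟨ε, hε, hbd⟩ := h1 (Fin k) d N hN (by rw [hsum]; exact hfr) J
    (fun j => Ψ ⟨A j, hA j⟩) (fun g i => ((hiso ⟨A g, hA g⟩).1 i).trans (hA1 g))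
  refine ⟨ε, hε, ?_⟩
  have key : ((∑ g, ((ε g : ℝ) : ℂ) • (⟨A g, hA g⟩ : 𝒜) : 𝒜) : Matrix m m ℂ) =
      ∑ g, ((ε g : ℝ) : ℂ) • A g := by
    rw [← StarSubalgebra.coe_subtype, map_sum]
    exact Finset.sum_congr rfl fun g _ => by rw [map_smul]; rfl
  rw [← key]
  refine (hiso _).2 _ (by positivity) fun i => ?_
  have hb := hbd i
  have : Ψ (∑ g, ((ε g : ℝ) : ℂ) • (⟨A g, hA g⟩ : 𝒜)) i =
      ∑ g, ((ε g : ℝ) : ℂ) • Ψ ⟨A g, hA g⟩ i := by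
    rw [map_sum, Finset.sum_apply]
    exact Finset.sum_congr rfl fun g _ => by rw [map_smul]; rfl
  rw [this]
  exact hb

end Pool.Agent.Q98.SPN
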