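import Pool.Agent.Q98.SPN.Stm

/-!
# Project SPN (MP_1157dd_an): job NUM (helper162), sum over the levels
-/

set_option autoImplicit false

open Finset

namespace Pool.Agent.Q98.SPN

theorem NUM_a (a : ℝ) (ha : 0 ≤ a) (κ : ℕ) (hκ : 2 ≤ κ) : (a + κ) * 100 ^ 2 ≤ (a + 2) * 100 ^ κ := by
  induction κ, hκ using Nat.le_induction with
  | base => norm_num
  | succ n hn ih =>
    have h1 : (2 : ℝ) ≤ n := by exact_mod_cast hn
    rw [pow_succ (100 : ℝ) n]
    push_cast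
    nlinarith

theorem NUM_ok : S_NUM := by
  intro m κ K hκ
  have hm : (0 : ℝ) ≤ m := Nat.cast_nonneg m
  have h1 : ∀ k ∈ range K, ((m : ℝ) / (200 * 2 ^ k) + (m : ℝ) / 16 ^ k * (2 * (22.1 + 13.6 * k + κ) / 100 ^ κ)) ≤
      (m : ℝ) * 0.00982 * (1 / 2) ^ k := by
    intro k _
    have hk : (0 : ℝ) ≤ k := Nat.cast_nonneg k
    have h2 := NUM_a (22.1 + 13.6 * k) (by positivity) κ hκ
    have h3 : 2 * (22.1 + 13.6 * (k : ℝ) + κ) / 100 ^ κ ≤ 2 * (24.1 + 13.6 * k) / 100 ^ 2 := by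
      rw [div_le_div_iff₀ (by positivity) (by positivity)]
      nlinarith
    have h4 : (24.1 + 13.6 * (k : ℝ)) ≤ 24.1 * 8 ^ k := by
      have h5 := one_add_mul_le_pow (show (-2 : ℝ) ≤ 7 by norm_num) k
      norm_num at h5
      nlinarith
    have h6 : (m : ℝ) / 16 ^ k * (2 * (22.1 + 13.6 * k + κ) / 100 ^ κ) ≤ (m : ℝ) * 0.00482 * (1 / 2) ^ k := by
      calc (m : ℝ) / 16 ^ k * (2 * (22.1 + 13.6 * k + κ) / 100 ^ κ)
          ≤ (m : ℝ) / 16 ^ k * (2 * (24.1 + 13.6 * k) / 100 ^ 2) :=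
            mul_le_mul_of_nonneg_left h3 (by positivity)
        _ ≤ (m : ℝ) / 16 ^ k * (2 * (24.1 * 8 ^ k) / 100 ^ 2) := by
            refine mul_le_mul_of_nonneg_left ?_ (by positivity)
            gcongr
        _ = (m : ℝ) * 0.00482 * (1 / 2) ^ k := by
            have h7 : (16 : ℝ) ^ k = 2 ^ k * 8 ^ k := by rw [← mul_pow]; norm_num
            rw [h7, one_div, inv_pow]
            field_simp
            norm_num
            ring
    have h8 : (m : ℝ) / (200 * 2 ^ k) = (m : ℝ) * 0.005 * (1 / 2) ^ k := by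
      rw [one_div, inv_pow]
      field_simp
      norm_num
      ring
    rw [h8]
    linarith
  refine (Finset.sum_le_sum h1).trans ?_
  rw [← Finset.mul_sum]
  have h9 : ∑ k ∈ range K, ((1 : ℝ) / 2) ^ k ≤ 2 := by
    have h10 := mul_neg_geom_sum ((1 : ℝ) / 2) K
    have h11 : (0 : ℝ) ≤ (1 / 2) ^ K := by positivity
    linarith
  nlinarith

end Pool.Agent.Q98.SPN
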