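import Pool.Agent.Q98.SPN.Star
import Mathlib.Analysis.Matrix.Order

set_option autoImplicit false

open scoped Matrix.Norms.L2Operator Matrix ComplexOrder MatrixOrder
open Finset

namespace Pool.Agent.Q98.SPN

theorem sq_aux {d : ℕ} (A : Matrix (Fin d) (Fin d) ℂ) (hA : A.PosSemidef) :
    ∃ B : Matrix (Fin d) (Fin d) ℂ, A = Bᴴ * B := by
  obtain ⟨B, hB⟩ := CStarAlgebra.nonneg_iff_eq_star_mul_self.mp hA.nonneg
  exact ⟨B, hB⟩

theorem SQ_ok : S_SQ := by
  intro m _ _ d T hT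
  obtain ⟨B, hB⟩ := sq_aux (Tᴴ * T) (Matrix.posSemidef_conjTranspose_mul_self T)
  have hinj : Function.Injective B.mulVec := by
    intro u v huv
    have h0 : B *ᵥ (u - v) = 0 := by
      rw [Matrix.mulVec_sub]
      exact sub_eq_zero.mpr huv
    have h1 : (Tᴴ * T) *ᵥ (u - v) = 0 := by
      rw [hB, ← Matrix.mulVec_mulVec, h0, Matrix.mulVec_zero]
    have h2 : T *ᵥ (u - v) = 0 := by
      have h3 : star (u - v) ⬝ᵥ (Tᴴ * T) *ᵥ (u - v) = 0 := by rw [h1, dotProduct_zero]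
      rw [← Matrix.mulVec_mulVec, Matrix.dotProduct_mulVec, Matrix.vecMul_conjTranspose,
        star_star] at h3
      exact dotProduct_star_self_eq_zero.mp h3
    exact sub_eq_zero.mp (hT _ h2)
  obtain ⟨S, hS⟩ := Matrix.mulVec_injective_iff_isUnit.mp hinj
  exact ⟨S, by rw [hS, ← hB]⟩

end Pool.Agent.Q98.SPN
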