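import Pool.Agent.Q98.SPN.Star

set_option autoImplicit false

open scoped Matrix.Norms.L2Operator Matrix
open Finset

namespace Pool.Agent.Q98.SPN

theorem SWED_ok (h : S_SS) : S_SWED := by
  intro m _ _ 𝒜
  have : IsSemisimpleRing 𝒜 := h m 𝒜
  have : FiniteDimensional ℂ 𝒜 :=
    FiniteDimensional.of_injective (𝒜.subtype.toAlgHom.toLinearMap) Subtype.val_injective
  obtain ⟨k, d, hd, ⟨e⟩⟩ := IsSemisimpleRing.exists_algEquiv_pi_matrix_of_isAlgClosed ℂ 𝒜
  refine ⟨k, d, e, fun i => Nat.pos_of_ne_zero (hd i).1, ?_⟩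
  rw [e.toLinearEquiv.finrank_eq, Module.finrank_pi_fintype]
  refine Finset.sum_congr rfl fun i _ => ?_
  rw [Module.finrank_matrix]
  simp [sq]

end Pool.Agent.Q98.SPN
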