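import Pool.Agent.Q277.SPN.SM
import Pool.Agent.Q277.SPN.WORD
import Pool.Agent.Q153.SPN.TKN
import Pool.Agent.Q223.SPN.GOOD
import Pool.Agent.Q208.SPN.Spec
import Pool.Agent.Q154.SPN.COLS
import Pool.Agent.Q129.SPN.DEC
import Pool.Agent.Q154.SPN.NET
import Pool.Agent.Q98.SPN.LR
import Pool.Agent.Q98.SPN.CNT
import Pool.Agent.Q129.SPN.LEV
import Pool.Agent.Q124.SPN.LOGC
import Pool.Agent.Q98.SPN.NUM
import Pool.Agent.Q124.SPN.COVL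
import Pool.Agent.Q150.SPN.COV
import Pool.Agent.Q124.SPN.PC
import Pool.Agent.Q124.SPN.GF
import Pool.Agent.Q150.SPN.MAINP
import Pool.Agent.Q153.SPN.MAIN
import Pool.Agent.Q5.SPN.SS
import Pool.Agent.Q98.SPN.SWED
import Pool.Agent.Q5.SPN.INT
import Pool.Agent.Q98.SPN.SQ
import Pool.Agent.Q5.SPN.SMOD
import Pool.Agent.Q87.SPN.ISO
import Pool.Agent.Q98.SPN.MAINC
import Pool.Agent.Q98.SPN.CPX
import Pool.Agent.Q224.SPN.RNM
import Pool.Agent.Q224.SPN.MAINR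
import Pool.Agent.Q224.SPN.GRA

/-! Assembly of the lemmas of project SPN. -/

namespace Pool.Agent.Q98.SPN

theorem good : S_GOOD := Q223.SPN.GOOD_ok Q277.SPN.SM_ok Q277.SPN.WORD_ok Q153.SPN.TKN_ok

theorem dec : S_DEC := Q129.SPN.DEC_ok Q208.SPN.SPEC_ok Q154.SPN.COLS_ok

theorem lev : S_LEV := Q129.SPN.LEV_ok (LR_ok Q154.SPN.NET_ok) CNT_ok

theorem cov : S_COV := Q150.SPN.COV_ok (Q124.SPN.COVL_ok dec Q153.SPN.TKN_ok) lev Q124.SPN.LOGC_ok NUM_ok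

theorem main' : S_MAIN := Q153.SPN.MAIN_ok (Q150.SPN.MAINP_ok (Q124.SPN.PC_ok good cov) Q124.SPN.GF_ok)

theorem smod : S_SMOD := Q5.SPN.SMOD_ok (SWED_ok Q5.SPN.SS_ok) Q5.SPN.INT_ok SQ_ok

theorem mainC : S_MAINC := MAINC_ok main' smod Q87.SPN.ISO_ok

theorem mainR : S_MAINR := Q224.SPN.MAINR_ok mainC CPX_ok Q224.SPN.RNM_ok

theorem gra : S_GRA := Q224.SPN.GRA_ok

end Pool.Agent.Q98.SPN
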