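import Pool.Agent.Q98.SPN.Star

/-!
# Project SPN: the final form of the bounds
-/

set_option autoImplicit false

open scoped Matrix.Norms.L2Operator Matrix
open Finset

namespace Pool.Agent.Q98.SPN

lemma sqrt_gf (N : ℝ) (n : ℕ) :
    Real.sqrt (gf N n) = Real.sqrt n * max 1 (Real.sqrt (Real.log (N / n))) := by
  unfold gf
  rw [Real.sqrt_mul (Nat.cast_nonneg n)]
  congr 1
  rcases le_total 1 (Real.log (N / n)) with h | h
  · rw [max_eq_right h, max_eq_right]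
    rw [← Real.sqrt_one]
    exact Real.sqrt_le_sqrt h
  · rw [max_eq_left h, max_eq_left, Real.sqrt_one]
    rw [← Real.sqrt_one]
    exact Real.sqrt_le_sqrt h

lemma sqrt_gf_max (N n : ℕ) :
    Real.sqrt (gf (max N 1 : ℕ) n) = Real.sqrt n * max 1 (Real.sqrt (Real.log (N / n))) := by
  rw [sqrt_gf]
  rcases Nat.eq_zero_or_pos N with h | h
  · subst h
    have e1 : Real.sqrt (Real.log (((0 : ℕ) : ℝ) / n)) = 0 := by
      simp
    rw [e1]
    rcases Nat.eq_zero_or_pos n with hn | hn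
    · subst hn; simp
    · have e2 : Real.log (((max 0 1 : ℕ) : ℝ) / n) ≤ 0 := by
        apply Real.log_nonpos
        · positivity
        · rw [div_le_one (by exact_mod_cast hn)]
          simp
          exact_mod_cast hn
      rw [Real.sqrt_eq_zero_of_nonpos e2]
  · have e : max N 1 = N := max_eq_left h
    rw [e]

lemma finC (h : S_MAINC) (m : Type) [Fintype m] [DecidableEq m] (n : ℕ)
    (𝒜 : StarSubalgebra ℂ (Matrix m m ℂ)) (A : Fin n → Matrix m m ℂ) (hA : ∀ i, A i ∈ 𝒜)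
    (hn : ∀ i, ‖Matrix.toEuclideanCLM (𝕜 := ℂ) (A i)‖ ≤ 1) :
    ∃ ε : Fin n → ℝ, (∀ i, ε i = 1 ∨ ε i = -1) ∧
      ‖Matrix.toEuclideanCLM (𝕜 := ℂ) (∑ i, ((ε i : ℝ) : ℂ) • A i)‖ ≤
        10 ^ 5 * Real.sqrt n * max 1 (Real.sqrt (Real.log ((Module.finrank ℂ 𝒜 : ℝ) / n))) := by
  obtain ⟨ε, h1, h2⟩ := h m 𝒜 ((max (Module.finrank ℂ 𝒜) 1 : ℕ) : ℝ)
    (by exact_mod_cast lt_of_lt_of_le Nat.zero_lt_one (le_max_right _ 1))
    (by exact_mod_cast le_max_left _ _) (Fin n) A hA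
    (fun j => by rw [← Matrix.l2_opNorm_toEuclideanCLM]; exact hn j)
  refine ⟨ε, h1, ?_⟩
  rw [Fintype.card_fin, sqrt_gf_max] at h2
  rw [Matrix.l2_opNorm_toEuclideanCLM]
  calc _ ≤ _ := h2
    _ = _ := by ring

lemma finR (h : S_MAINR) (m : Type) [Fintype m] [DecidableEq m] (n : ℕ)
    (𝒜 : Subalgebra ℝ (Matrix m m ℝ)) (hT : ∀ x ∈ 𝒜, xᵀ ∈ 𝒜) (A : Fin n → Matrix m m ℝ)
    (hA : ∀ i, A i ∈ 𝒜)
    (hn : ∀ i, ‖Matrix.toEuclideanCLM (𝕜 := ℝ) (A i)‖ ≤ 1) :
    ∃ ε : Fin n → ℝ, (∀ i, ε i = 1 ∨ ε i = -1) ∧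
      ‖Matrix.toEuclideanCLM (𝕜 := ℝ) (∑ i, ε i • A i)‖ ≤
        10 ^ 5 * Real.sqrt n * max 1 (Real.sqrt (Real.log ((Module.finrank ℝ 𝒜 : ℝ) / n))) := by
  obtain ⟨ε, h1, h2⟩ := h m 𝒜 ((max (Module.finrank ℝ 𝒜) 1 : ℕ) : ℝ) hT
    (by exact_mod_cast lt_of_lt_of_le Nat.zero_lt_one (le_max_right _ 1))
    (by exact_mod_cast le_max_left _ _) (Fin n) A hA
    (fun j => by rw [← Matrix.l2_opNorm_toEuclideanCLM]; exact hn j)
  refine ⟨ε, h1, ?_⟩
  rw [Fintype.card_fin, sqrt_gf_max] at h2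
  rw [Matrix.l2_opNorm_toEuclideanCLM]
  calc _ ≤ _ := h2
    _ = _ := by ring

/-- the left regular representation -/
def reg {G : Type} [Group G] [DecidableEq G] (g : G) : Matrix G G ℝ :=
  Matrix.of fun h k => if h = g * k then 1 else 0

lemma sum_reg {G : Type} [Group G] [Fintype G] [DecidableEq G] (x : G → ℝ) :
    ∑ g, x g • reg g = convR x := by
  ext h k
  rw [Matrix.sum_apply]
  simp only [Matrix.smul_apply, reg, Matrix.of_apply, smul_eq_mul, mul_ite, mul_one, mul_zero,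
    convR]
  rw [Finset.sum_eq_single (h * k⁻¹)]
  · simp
  · intro b _ hb
    rw [if_neg]
    intro hh
    exact hb (by rw [hh]; group)
  · intro hh
    exact absurd (Finset.mem_univ _) hh

lemma norm_reg {G : Type} [Group G] [Fintype G] [DecidableEq G] (g : G) : ‖reg g‖ ≤ 1 := by
  have h : (reg g)ᴴ * reg g = 1 := by
    ext a b
    rw [Matrix.mul_apply]
    simp only [Matrix.conjTranspose_apply, reg, Matrix.of_apply]
    rw [Finset.sum_eq_single (g * a)]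
    · by_cases hab : a = b
      · subst hab; simp
      · have : ¬ g * a = g * b := fun hh => hab (mul_left_cancel hh)
        rw [if_neg this, mul_zero, Matrix.one_apply_ne hab]
    · intro c _ hc
      rw [if_neg hc]; simp
    · intro hh
      exact absurd (Finset.mem_univ _) hh
  have h2 := Matrix.l2_opNorm_conjTranspose_mul_self (reg g)
  rw [h] at h2
  have h3 : ‖(1 : Matrix G G ℝ)‖ = 1 := CStarRing.norm_one
  rw [h3] at h2
  nlinarith [norm_nonneg (reg g)]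

lemma finG (h : S_MAINR) (h' : S_GRA) (G : Type) [Group G] [Fintype G] [DecidableEq G]
    (J : Type) [Fintype J] [DecidableEq J] (x : J → G → ℝ)
    (hn : ∀ j, ‖Matrix.toEuclideanCLM (𝕜 := ℝ) (∑ g, x j g • reg g)‖ ≤ 1) :
    ∃ ε : J → ℝ, (∀ j, ε j = 1 ∨ ε j = -1) ∧
      ‖Matrix.toEuclideanCLM (𝕜 := ℝ) (∑ j, ε j • ∑ g, x j g • reg g)‖ ≤
        10 ^ 5 * Real.sqrt (Fintype.card J) *
          max 1 (Real.sqrt (Real.log ((Fintype.card G : ℝ) / Fintype.card J))) := by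
  obtain ⟨𝒜, hT, hx, hd⟩ := h' G
  obtain ⟨ε, h1, h2⟩ := h G 𝒜 (Fintype.card G : ℝ) hT (by exact_mod_cast Fintype.card_pos)
    (by exact_mod_cast hd) J (fun j => ∑ g, x j g • reg g)
    (fun j => by simp only [sum_reg]; exact hx _)
    (fun j => by rw [← Matrix.l2_opNorm_toEuclideanCLM]; exact hn j)
  refine ⟨ε, h1, ?_⟩
  rw [sqrt_gf] at h2
  rw [Matrix.l2_opNorm_toEuclideanCLM]
  calc _ ≤ _ := h2
    _ = _ := by ring

lemma finS (h : S_MAINR) (h' : S_GRA) (G : Type) [Group G] [Fintype G] [DecidableEq G]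
    (c : G → ℝ) (hc : ∀ g, |c g| ≤ 1) :
    ∃ ε : G → ℝ, (∀ g, ε g = 1 ∨ ε g = -1) ∧
      ‖Matrix.toEuclideanCLM (𝕜 := ℝ) (∑ g, (ε g * c g) • reg g)‖ ≤
        10 ^ 5 * Real.sqrt (Fintype.card G) := by
  have e : ∀ j : G, ∑ g, (if g = j then c j else 0) • reg g = c j • reg j := by
    intro j
    rw [Finset.sum_eq_single j]
    · simp
    · intro b _ hb; simp [hb]
    · intro hh; exact absurd (Finset.mem_univ _) hh
  obtain ⟨ε, h1, h2⟩ := finG h h' G G (fun j g => if g = j then c j else 0) (fun j => by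
    rw [e j, Matrix.l2_opNorm_toEuclideanCLM, norm_smul, Real.norm_eq_abs]
    calc |c j| * ‖reg j‖ ≤ 1 * 1 := mul_le_mul (hc j) (norm_reg j) (norm_nonneg _) zero_le_one
      _ = 1 := one_mul 1)
  refine ⟨ε, h1, ?_⟩
  simp only [e, smul_smul] at h2
  have h3 : (Fintype.card G : ℝ) / Fintype.card G = 1 :=
    div_self (by exact_mod_cast Fintype.card_ne_zero)
  rw [h3, Real.log_one, Real.sqrt_zero, max_eq_left zero_le_one, mul_one] at h2
  exact h2

end Pool.Agent.Q98.SPN
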