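import Mathlib

/-!
# From signs to linear discrepancy

`lin_disc`: if every subfamily of at most `M` members of a family of vectors has signs with signed sum of norm
at most `b`, and the family has at most `M` members or spans a space of dimension at most `M`, then every
point `x` of the cube can be rounded to signs with error at most `2 b` (Lovász, Spencer, Vesztergombi; and the
vertex argument).
-/

open Finset

namespace Pool.Agent.Q98.SPN

variable {V : Type*} [NormedAddCommGroup V] [NormedSpace ℝ V] {J : Type} [Fintype J] [DecidableEq J]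

/-- the vertex argument -/
lemma lvertex (A : J → V) (M : ℕ) (hM : Module.finrank ℝ (Submodule.span ℝ (Set.range A)) ≤ M) :
    ∀ n : ℕ, ∀ x : J → ℝ, (∀ j, |x j| ≤ 1) → (univ.filter (fun j => |x j| < 1)).card = n →
      ∃ y : J → ℝ, (∀ j, |y j| ≤ 1) ∧ ∑ j, y j • A j = ∑ j, x j • A j ∧
        (univ.filter (fun j => |y j| < 1)).card ≤ M := by
  intro n
  induction n using Nat.strong_induction_on with
  | _ n ih =>
    intro x hx hn
    by_cases hle : n ≤ M
    · exact ⟨x, hx, rfl, hn ▸ hle⟩
    push Not at hle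
    set F := univ.filter (fun j => |x j| < 1) with hF
    -- a dependence
    let f : (F → ℝ) →ₗ[ℝ] Submodule.span ℝ (Set.range A) :=
      (Fintype.linearCombination ℝ (fun j : F => A j)).codRestrict _ (by
        intro c
        rw [Fintype.linearCombination_apply]
        exact Submodule.sum_mem _ fun i _ => Submodule.smul_mem _ _ (Submodule.subset_span ⟨i, rfl⟩))
    have hfd : FiniteDimensional ℝ (Submodule.span ℝ (Set.range A)) :=
      FiniteDimensional.span_of_finite ℝ (Set.finite_range A)
    have hker : LinearMap.ker f ≠ ⊥ := by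
      apply LinearMap.ker_ne_bot_of_finrank_lt
      rw [Module.finrank_fintype_fun_eq_card, Fintype.card_coe, hn]
      omega
    obtain ⟨c, hc, hc0⟩ := Submodule.exists_mem_ne_zero_of_ne_bot hker
    have hfc : ∑ j : F, c j • A j = 0 := by
      have h1 : (f c : V) = 0 := by
        rw [LinearMap.mem_ker] at hc
        rw [hc]
        rfl
      rw [← h1]
      change _ = Fintype.linearCombination ℝ (fun j : F => A j) c
      rw [Fintype.linearCombination_apply]
    -- extend by zero
    set d : J → ℝ := fun j => if h : j ∈ F then c ⟨j, h⟩ else 0 with hd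
    have hdF : ∀ j, j ∉ F → d j = 0 := fun j h => by simp [hd, h]
    have hds : ∑ j, d j • A j = 0 := by
      rw [← hfc, ← Finset.sum_subset (Finset.subset_univ F) (fun j _ h => by rw [hdF j h, zero_smul]),
        ← Finset.sum_coe_sort]
      refine Finset.sum_congr rfl fun j _ => ?_
      simp [hd]
    obtain ⟨i0, hi0⟩ : ∃ i : F, c i ≠ 0 := by
      by_contra h
      push Not at h
      exact hc0 (funext h)
    have hdi : d i0 ≠ 0 := by simpa [hd] using hi0
    -- the first hitting time
    set t : J → ℝ := fun j => if 0 < d j then (1 - x j) / d j else (1 + x j) / (- d j) with ht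
    obtain ⟨i, hiF, himin⟩ := Finset.exists_min_image (F.filter (fun j => d j ≠ 0)) t
      ⟨i0, Finset.mem_filter.mpr ⟨i0.2, hdi⟩⟩
    rw [Finset.mem_filter] at hiF
    have htpos : ∀ j ∈ F, d j ≠ 0 → 0 < t j := by
      intro j hj hdj
      have h1 : |x j| < 1 := (Finset.mem_filter.mp hj).2
      rw [abs_lt] at h1
      simp only [ht]
      split_ifs with h
      · exact div_pos (by linarith [h1.2]) h
      · have h2 : d j < 0 := lt_of_le_of_ne (not_lt.mp h) hdj
        exact div_pos (by linarith [h1.1]) (by linarith)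
    have hti := htpos i hiF.1 hiF.2
    set x' : J → ℝ := fun j => x j + t i * d j with hx'
    have hb : ∀ j, |x' j| ≤ 1 := by
      intro j
      by_cases hj : j ∈ F
      · by_cases hdj : d j = 0
        · simp only [hx', hdj, mul_zero, add_zero]; exact hx j
        · have h1 := himin j (Finset.mem_filter.mpr ⟨hj, hdj⟩)
          have h2 := abs_le.mp (hx j)
          rw [abs_le]
          simp only [hx']
          by_cases hp : 0 < d j
          · have h3 : t j = (1 - x j) / d j := by simp only [ht]; rw [if_pos hp]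
            have h4 : t i * d j ≤ 1 - x j := by
              rw [h3] at h1
              rwa [le_div_iff₀ hp] at h1
            constructor
            · nlinarith [mul_pos hti hp]
            · linarith
          · have hn' : 0 < - d j := by
              have : d j < 0 := lt_of_le_of_ne (not_lt.mp hp) hdj
              linarith
            have h3 : t j = (1 + x j) / (- d j) := by simp only [ht]; rw [if_neg hp]
            have h4 : t i * (- d j) ≤ 1 + x j := by
              rw [h3] at h1
              rwa [le_div_iff₀ hn'] at h1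
            constructor
            · linarith
            · nlinarith [mul_pos hti hn']
      · simp only [hx', hdF j hj, mul_zero, add_zero]; exact hx j
    have hsum : ∑ j, x' j • A j = ∑ j, x j • A j := by
      have : ∑ j, x' j • A j = ∑ j, x j • A j + t i • ∑ j, d j • A j := by
        rw [Finset.smul_sum, ← Finset.sum_add_distrib]
        refine Finset.sum_congr rfl fun j _ => ?_
        simp only [hx']
        rw [add_smul, smul_smul]
      rw [this, hds, smul_zero, add_zero]
    have hcard : (univ.filter (fun j => |x' j| < 1)).card < n := by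
      rw [← hn]
      apply Finset.card_lt_card
      rw [Finset.ssubset_iff_of_subset]
      · refine ⟨i, hiF.1, ?_⟩
        rw [Finset.mem_filter, not_and, not_lt]
        intro _
        simp only [hx']
        by_cases hp : 0 < d i
        · have h3 : t i = (1 - x i) / d i := by simp only [ht]; rw [if_pos hp]
          have : x i + t i * d i = 1 := by rw [h3, div_mul_cancel₀ _ hp.ne']; ring
          rw [this]; simp
        · have hn' : 0 < - d i := by
            have : d i < 0 := lt_of_le_of_ne (not_lt.mp hp) hiF.2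
            linarith
          have h3 : t i = (1 + x i) / (- d i) := by simp only [ht]; rw [if_neg hp]
          have : x i + t i * d i = -1 := by
            have h5 : t i * (- d i) = 1 + x i := by rw [h3, div_mul_cancel₀ _ hn'.ne']
            linarith
          rw [this]; simp
      · intro j hj
        rw [Finset.mem_filter] at hj ⊢
        refine ⟨Finset.mem_univ _, ?_⟩
        by_contra hcon
        have hjF : j ∉ F := fun h => hcon (Finset.mem_filter.mp h).2
        have : x' j = x j := by simp only [hx', hdF j hjF, mul_zero, add_zero]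
        rw [this] at hj
        exact hcon hj.2
    obtain ⟨y, h1, h2, h3⟩ := ih _ hcard x' hb rfl
    exact ⟨y, h1, h2.trans hsum, h3⟩

omit [DecidableEq J] in
/-- rounding of dyadic points -/
lemma lround (A : J → V) (b : ℝ) (M : ℕ)
    (h : ∀ F : Finset J, F.card ≤ M → ∃ ε : J → ℝ, (∀ j, ε j = 1 ∨ ε j = -1) ∧ ‖∑ j ∈ F, ε j • A j‖ ≤ b) :
    ∀ k : ℕ, ∀ m : J → ℤ, (∀ j, 0 ≤ m j ∧ m j ≤ 2 ^ k) →
      (univ.filter (fun j => 0 < m j ∧ m j < 2 ^ k)).card ≤ M →
      ∃ e : J → ℝ, (∀ j, e j = 0 ∨ e j = 1) ∧
        ‖∑ j, (e j - (m j : ℝ) / 2 ^ k) • A j‖ ≤ b * (1 - 1 / 2 ^ k) := by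
  intro k
  induction k with
  | zero =>
    intro m hm _
    refine ⟨fun j => (m j : ℝ), fun j => ?_, ?_⟩
    · have := hm j
      simp only [pow_zero] at this
      have h2 : m j = 0 ∨ m j = 1 := by omega
      rcases h2 with h2 | h2 <;> simp [h2]
    · simp
  | succ k ih =>
    intro m hm hcard
    set O := univ.filter (fun j => Odd (m j)) with hO
    have hOM : O.card ≤ M := by
      refine le_trans (Finset.card_le_card ?_) hcard
      intro j hj
      rw [Finset.mem_filter] at hj ⊢
      refine ⟨Finset.mem_univ _, ?_⟩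
      have h1 := hm j
      have h2 := hj.2
      constructor
      · rcases h1.1.lt_or_eq with h | h
        · exact h
        · rw [← h] at h2; simp at h2
      · rcases h1.2.lt_or_eq with h | h
        · exact h
        · rw [h] at h2
          exact absurd h2 (by rw [Int.not_odd_iff_even, pow_succ]; exact even_two.mul_left _)
    obtain ⟨σ, hσ, hσn⟩ := h O hOM
    set m' : J → ℤ := fun j => if Odd (m j) then (if σ j = 1 then (m j + 1) / 2 else (m j - 1) / 2)
      else m j / 2 with hm'
    have hpow : (2 : ℤ) ^ (k + 1) = 2 * 2 ^ k := by ring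
    have hm'b : ∀ j, 0 ≤ m' j ∧ m' j ≤ 2 ^ k := by
      intro j
      have h1 := hm j
      rw [hpow] at h1
      simp only [hm']
      split_ifs with h2 h3
      · obtain ⟨r, hr⟩ := h2
        omega
      · obtain ⟨r, hr⟩ := h2
        omega
      · omega
    have hcard' : (univ.filter (fun j => 0 < m' j ∧ m' j < 2 ^ k)).card ≤ M := by
      refine le_trans (Finset.card_le_card ?_) hcard
      intro j hj
      rw [Finset.mem_filter] at hj ⊢
      refine ⟨Finset.mem_univ _, ?_⟩
      have h1 := hm j
      have h2 := hj.2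
      rw [hpow] at h1 ⊢
      simp only [hm'] at h2
      constructor
      · rcases h1.1.lt_or_eq with h | h
        · exact h
        · rw [← h] at h2; simp at h2
      · rcases h1.2.lt_or_eq with h | h
        · exact h
        · rw [h] at h2
          have h3 : ¬ Odd (2 * (2 : ℤ) ^ k) := by rw [Int.not_odd_iff_even]; exact even_two_mul _
          rw [if_neg h3] at h2
          omega
    obtain ⟨e, he, hen⟩ := ih m' hm'b hcard'
    refine ⟨e, he, ?_⟩
    have hkey : ∑ j, (e j - (m j : ℝ) / 2 ^ (k + 1)) • A j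
        = ∑ j, (e j - (m' j : ℝ) / 2 ^ k) • A j + (1 / 2 ^ (k + 1) : ℝ) • ∑ j ∈ O, σ j • A j := by
      rw [Finset.smul_sum, hO, Finset.sum_filter, ← Finset.sum_add_distrib]
      refine Finset.sum_congr rfl fun j _ => ?_
      have h2k : (2 : ℝ) ^ k ≠ 0 := by positivity
      by_cases hodd : Odd (m j)
      · rw [if_pos hodd, smul_smul, ← add_smul]
        congr 1
        have h3 : (m' j : ℝ) = ((m j : ℝ) + σ j) / 2 := by
          obtain ⟨r, hr⟩ := hodd
          have hodd : Odd (m j) := ⟨r, hr⟩
          rcases hσ j with hs | hs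
          · have h4 : m' j = r + 1 := by
              simp only [hm']; rw [if_pos hodd, if_pos hs]; omega
            rw [h4, hr, hs]; push_cast; ring
          · have h4 : m' j = r := by
              simp only [hm']; rw [if_pos hodd, if_neg (by rw [hs]; norm_num)]; omega
            rw [h4, hr, hs]; push_cast; ring
        rw [h3, pow_succ]
        field_simp
        ring
      · rw [if_neg hodd, add_zero]
        congr 1
        rw [Int.not_odd_iff_even] at hodd
        obtain ⟨r, hr⟩ := hodd
        have h4 : m' j = r := by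
          simp only [hm']; rw [if_neg (by rw [Int.not_odd_iff_even]; exact ⟨r, hr⟩)]; omega
        rw [h4, hr, pow_succ]
        push_cast
        field_simp
        ring
    rw [hkey]
    refine (norm_add_le _ _).trans ?_
    rw [norm_smul, Real.norm_of_nonneg (by positivity)]
    have h5 : (1 / 2 ^ (k + 1) : ℝ) * ‖∑ j ∈ O, σ j • A j‖ ≤ 1 / 2 ^ (k + 1) * b :=
      mul_le_mul_of_nonneg_left hσn (by positivity)
    have h6 : b * (1 - 1 / 2 ^ k) + 1 / 2 ^ (k + 1) * b = b * (1 - 1 / 2 ^ (k + 1)) := by
      have h2k : (2 : ℝ) ^ k ≠ 0 := by positivity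
      rw [pow_succ]
      field_simp
      ring
    linarith

/-- rounding of points of the cube `[0,1]^J` with few fractional coordinates -/
lemma lround01 (A : J → V) (b : ℝ) (M : ℕ)
    (h : ∀ F : Finset J, F.card ≤ M → ∃ ε : J → ℝ, (∀ j, ε j = 1 ∨ ε j = -1) ∧ ‖∑ j ∈ F, ε j • A j‖ ≤ b)
    (z : J → ℝ) (hz : ∀ j, 0 ≤ z j ∧ z j ≤ 1) (hcard : (univ.filter (fun j => 0 < z j ∧ z j < 1)).card ≤ M) :
    ∃ e : J → ℝ, (∀ j, e j = 0 ∨ e j = 1) ∧ ‖∑ j, (e j - z j) • A j‖ ≤ b := by
  have hb : 0 ≤ b := by
    obtain ⟨ε, -, h1⟩ := h ∅ (by simp)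
    simpa using h1
  by_contra hcon
  push Not at hcon
  -- the finite set of roundings
  let S : Finset (J → ℝ) := (univ : Finset (J → Bool)).image (fun s j => if s j then (1 : ℝ) else 0)
  have hS : ∀ e : J → ℝ, (∀ j, e j = 0 ∨ e j = 1) → e ∈ S := by
    intro e he
    refine Finset.mem_image.mpr ⟨fun j => decide (e j = 1), Finset.mem_univ _, ?_⟩
    funext j
    rcases he j with h1 | h1 <;> simp [h1]
  have hS' : ∀ e ∈ S, ∀ j, e j = 0 ∨ e j = 1 := by
    intro e he j
    obtain ⟨s, -, rfl⟩ := Finset.mem_image.mp he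
    by_cases hs : s j <;> simp [hs]
  have hSne : S.Nonempty := ⟨fun _ => 0, hS _ fun _ => Or.inl rfl⟩
  obtain ⟨e0, he0, hmin⟩ := Finset.exists_min_image S (fun e => ‖∑ j, (e j - z j) • A j‖) hSne
  have hgt := hcon e0 (hS' e0 he0)
  set δ := ‖∑ j, (e0 j - z j) • A j‖ - b with hδ
  have hδ0 : 0 < δ := by rw [hδ]; linarith
  set T := ∑ j, ‖A j‖ with hT
  have hT0 : 0 ≤ T := Finset.sum_nonneg fun _ _ => norm_nonneg _
  obtain ⟨k, hk⟩ := exists_pow_lt_of_lt_one (show 0 < δ / (T + 1) by positivity) (show (1 / 2 : ℝ) < 1 by norm_num)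
  have hk' : (1 / 2 ^ k : ℝ) * (T + 1) < δ := by
    rw [one_div_pow] at hk
    rwa [lt_div_iff₀ (by positivity)] at hk
  set m : J → ℤ := fun j => ⌊2 ^ k * z j⌋ with hm
  have h2k : (0 : ℝ) < 2 ^ k := by positivity
  have hmb : ∀ j, 0 ≤ m j ∧ m j ≤ 2 ^ k := by
    intro j
    constructor
    · exact Int.floor_nonneg.mpr (mul_nonneg h2k.le (hz j).1)
    · have h1 : (m j : ℝ) ≤ 2 ^ k * z j := Int.floor_le _
      have h2 : (m j : ℝ) ≤ ((2 ^ k : ℤ) : ℝ) := by
        push_cast
        nlinarith [(hz j).2]
      exact_mod_cast h2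
  have hmc : (univ.filter (fun j => 0 < m j ∧ m j < 2 ^ k)).card ≤ M := by
    refine le_trans (Finset.card_le_card ?_) hcard
    intro j hj
    rw [Finset.mem_filter] at hj ⊢
    refine ⟨Finset.mem_univ _, ?_, ?_⟩
    · rcases (hz j).1.lt_or_eq with h1 | h1
      · exact h1
      · exfalso
        have := hj.2.1
        simp only [hm] at this
        rw [← h1] at this
        simp at this
    · rcases (hz j).2.lt_or_eq with h1 | h1
      · exact h1
      · exfalso
        have := hj.2.2
        simp only [hm] at this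
        rw [h1, mul_one] at this
        have h3 : ⌊(2 : ℝ) ^ k⌋ = 2 ^ k := by
          have : ((2 : ℝ) ^ k) = (((2 : ℤ) ^ k : ℤ) : ℝ) := by push_cast; rfl
          rw [this, Int.floor_intCast]
        rw [h3] at this
        exact lt_irrefl _ this
  obtain ⟨e, he, hen⟩ := lround A b M h k m hmb hmc
  have h1 := hmin e (hS e he)
  have h2 : ‖∑ j, (e j - z j) • A j‖ ≤ b + 1 / 2 ^ k * T := by
    have hsplit : ∑ j, (e j - z j) • A j
        = ∑ j, (e j - (m j : ℝ) / 2 ^ k) • A j + ∑ j, ((m j : ℝ) / 2 ^ k - z j) • A j := by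
      rw [← Finset.sum_add_distrib]
      refine Finset.sum_congr rfl fun j _ => ?_
      rw [← add_smul]
      congr 1
      ring
    rw [hsplit]
    refine (norm_add_le _ _).trans (add_le_add ?_ ?_)
    · refine hen.trans ?_
      have : (0 : ℝ) ≤ 1 / 2 ^ k := by positivity
      nlinarith
    · refine (norm_sum_le _ _).trans ?_
      rw [hT, Finset.mul_sum]
      refine Finset.sum_le_sum fun j _ => ?_
      rw [norm_smul]
      refine mul_le_mul_of_nonneg_right ?_ (norm_nonneg _)
      have h3 : (m j : ℝ) ≤ 2 ^ k * z j := Int.floor_le _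
      have h4 : 2 ^ k * z j < m j + 1 := Int.lt_floor_add_one _
      rw [Real.norm_eq_abs, abs_le]
      constructor
      · have : z j ≤ ((m j : ℝ) + 1) / 2 ^ k := by rw [le_div_iff₀ h2k]; linarith
        rw [add_div] at this
        linarith
      · have : (m j : ℝ) / 2 ^ k ≤ z j := by rw [div_le_iff₀ h2k]; linarith
        have h5 : (0 : ℝ) ≤ 1 / 2 ^ k := by positivity
        linarith
  have h3 : (1 / 2 ^ k : ℝ) * T ≤ 1 / 2 ^ k * (T + 1) := by
    have : (0 : ℝ) ≤ 1 / 2 ^ k := by positivity
    nlinarith
  have h4 : ‖∑ j, (e0 j - z j) • A j‖ ≤ ‖∑ j, (e j - z j) • A j‖ := h1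
  rw [hδ] at hk'
  linarith

/-- **Linear discrepancy.** -/
theorem lin_disc (A : J → V) (b : ℝ) (M : ℕ)
    (h : ∀ F : Finset J, F.card ≤ M → ∃ ε : J → ℝ, (∀ j, ε j = 1 ∨ ε j = -1) ∧ ‖∑ j ∈ F, ε j • A j‖ ≤ b)
    (hM : Fintype.card J ≤ M ∨ Module.finrank ℝ (Submodule.span ℝ (Set.range A)) ≤ M)
    (x : J → ℝ) (hx : ∀ j, |x j| ≤ 1) :
    ∃ ε : J → ℝ, (∀ j, ε j = 1 ∨ ε j = -1) ∧ ‖∑ j, (ε j - x j) • A j‖ ≤ 2 * b := by
  obtain ⟨y, hy, hys, hyc⟩ : ∃ y : J → ℝ, (∀ j, |y j| ≤ 1) ∧ ∑ j, y j • A j = ∑ j, x j • A j ∧
      (univ.filter (fun j => |y j| < 1)).card ≤ M := by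
    rcases hM with hM | hM
    · exact ⟨x, hx, rfl, (Finset.card_le_univ _).trans hM⟩
    · exact lvertex A M hM _ x hx rfl
  obtain ⟨e, he, hen⟩ := lround01 A b M h (fun j => (y j + 1) / 2)
    (fun j => by
      have := abs_le.mp (hy j)
      constructor <;> linarith [this.1, this.2])
    (by
      refine le_trans (Finset.card_le_card ?_) hyc
      intro j hj
      rw [Finset.mem_filter] at hj ⊢
      refine ⟨Finset.mem_univ _, ?_⟩
      rw [abs_lt]
      constructor <;> linarith [hj.2.1, hj.2.2])
  refine ⟨fun j => 2 * e j - 1, fun j => ?_, ?_⟩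
  · rcases he j with h1 | h1
    · right; simp only [h1]; norm_num
    · left; simp only [h1]; norm_num
  · have hkey : ∑ j, ((2 * e j - 1) - x j) • A j = (2 : ℝ) • ∑ j, (e j - (y j + 1) / 2) • A j := by
      have h1 : ∑ j, ((2 * e j - 1) - x j) • A j = ∑ j, ((2 * e j - 1) - y j) • A j := by
        simp only [sub_smul _ (x _), sub_smul _ (y _)]
        rw [Finset.sum_sub_distrib, Finset.sum_sub_distrib, hys]
      rw [h1, Finset.smul_sum]
      refine Finset.sum_congr rfl fun j _ => ?_
      rw [smul_smul]
      congr 1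
      ring
    rw [hkey, norm_smul, Real.norm_of_nonneg (by norm_num : (0 : ℝ) ≤ 2)]
    exact mul_le_mul_of_nonneg_left hen (by norm_num)

end Pool.Agent.Q98.SPN
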