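import Pool.Agent.Q98.SPN.All
import Pool.Agent.Q98.SPN.Fin
import Pool.Agent.Q98.SPN.Lind

/-!
# Project SPN: the final form, with an arbitrary starting point in the cube
-/

set_option autoImplicit false

open scoped Matrix.Norms.L2Operator Matrix
open Finset

namespace Pool.Agent.Q98.SPN

/-- the bound -/
noncomputable def Lam (N n : ℕ) : ℝ :=
  Real.sqrt (min n N : ℕ) * max 1 (Real.sqrt (Real.log ((N : ℝ) / n)))

lemma gf_mono (N : ℝ) (hN : 0 < N) (n M : ℕ) (h : n ≤ M) : gf N n ≤ gf N M := by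
  unfold gf
  have hnM : (n : ℝ) ≤ M := by exact_mod_cast h
  rcases Nat.eq_zero_or_pos n with hn | hn
  · subst hn
    simp only [Nat.cast_zero, zero_mul]
    exact mul_nonneg (Nat.cast_nonneg _) (le_trans zero_le_one (le_max_left _ _))
  · have hn' : (0 : ℝ) < n := by exact_mod_cast hn
    have hM' : (0 : ℝ) < M := lt_of_lt_of_le hn' hnM
    set L := Real.log (N / M) with hL
    have e1 : Real.log (N / n) = L + Real.log (M / n) := by
      rw [hL, Real.log_div hN.ne' hn'.ne', Real.log_div hN.ne' hM'.ne', Real.log_div hM'.ne' hn'.ne']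
      ring
    have e2 : Real.log ((M : ℝ) / n) ≤ M / n - 1 := Real.log_le_sub_one_of_pos (by positivity)
    have e3 : (n : ℝ) * Real.log ((M : ℝ) / n) ≤ M - n := by
      calc (n : ℝ) * Real.log ((M : ℝ) / n) ≤ n * (M / n - 1) := mul_le_mul_of_nonneg_left e2 hn'.le
        _ = M - n := by field_simp
    have h1 : (1 : ℝ) ≤ max 1 L := le_max_left _ _
    have h2 : L ≤ max 1 L := le_max_right _ _
    rcases le_total (Real.log (N / n)) 1 with h3 | h3
    · rw [max_eq_left h3, mul_one]
      nlinarith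
    · rw [max_eq_right h3, e1, mul_add]
      nlinarith

lemma sqrt_gf_min (N n : ℕ) :
    Real.sqrt (gf (max N 1 : ℕ) (min n N : ℕ)) = Lam N n := by
  rw [sqrt_gf_max, Lam]
  rcases le_total n N with h | h
  · rw [min_eq_left h]
  · rw [min_eq_right h]
    have e1 : Real.sqrt (Real.log ((N : ℝ) / N)) = 0 := by
      rcases Nat.eq_zero_or_pos N with h0 | h0
      · subst h0; simp
      · rw [div_self (by exact_mod_cast h0.ne'), Real.log_one, Real.sqrt_zero]
    have e2 : Real.sqrt (Real.log ((N : ℝ) / n)) = 0 := by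
      apply Real.sqrt_eq_zero_of_nonpos
      apply Real.log_nonpos
      · positivity
      · rcases Nat.eq_zero_or_pos n with h0 | h0
        · subst h0; simp
        · rw [div_le_one (by exact_mod_cast h0)]
          exact_mod_cast h
    rw [e1, e2]

lemma linR (m : Type) [Fintype m] [DecidableEq m] (𝒜 : Subalgebra ℝ (Matrix m m ℝ))
    (hT : ∀ x ∈ 𝒜, xᵀ ∈ 𝒜) (N : ℕ) (hN : Module.finrank ℝ 𝒜 ≤ N)
    (J : Type) [Fintype J] [DecidableEq J] (A : J → Matrix m m ℝ) (hA : ∀ j, A j ∈ 𝒜)
    (hn : ∀ j, ‖A j‖ ≤ 1) (x : J → ℝ) (hx : ∀ j, |x j| ≤ 1) :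
    ∃ ε : J → ℝ, (∀ j, ε j = 1 ∨ ε j = -1) ∧
      ‖∑ j, (ε j - x j) • A j‖ ≤ 2 * (10 ^ 5 * Lam N (Fintype.card J)) := by
  refine lin_disc A _ (min (Fintype.card J) N) ?_ ?_ x hx
  · intro F hF
    obtain ⟨ε, h1, h2⟩ := mainR m 𝒜 ((max N 1 : ℕ) : ℝ) hT
      (by exact_mod_cast lt_of_lt_of_le Nat.zero_lt_one (le_max_right _ 1))
      (by exact_mod_cast hN.trans (le_max_left _ _)) F (fun j => A j) (fun j => hA j) (fun j => hn j)
    refine ⟨fun j => if h : j ∈ F then ε ⟨j, h⟩ else 1, fun j => ?_, ?_⟩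
    · by_cases h : j ∈ F
      · simp only [h, dite_true]; exact h1 _
      · simp only [h, dite_false]; exact Or.inl trivial
    · have e : ∑ j ∈ F, (if h : j ∈ F then ε ⟨j, h⟩ else 1) • A j = ∑ j : F, ε j • A j := by
        rw [← Finset.sum_coe_sort]
        refine Finset.sum_congr rfl fun j _ => ?_
        simp
      rw [e]
      refine h2.trans (mul_le_mul_of_nonneg_left ?_ (by positivity))
      rw [← sqrt_gf_min]
      apply Real.sqrt_le_sqrt
      rw [Fintype.card_coe]
      exact gf_mono _ (by exact_mod_cast lt_of_lt_of_le Nat.zero_lt_one (le_max_right _ 1)) _ _ hF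
  · rcases le_total (Fintype.card J) N with h | h
    · left; rw [min_eq_left h]
    · right
      rw [min_eq_right h]
      refine le_trans ?_ hN
      have hle : Submodule.span ℝ (Set.range A) ≤ Subalgebra.toSubmodule 𝒜 := by
        rw [Submodule.span_le]
        rintro _ ⟨j, rfl⟩
        exact hA j
      exact Submodule.finrank_mono hle

lemma Lam_nonneg (N n : ℕ) : 0 ≤ Lam N n :=
  mul_nonneg (Real.sqrt_nonneg _) (le_trans zero_le_one (le_max_left _ _))

lemma Lam_two (N n : ℕ) : Lam (2 * N) n ≤ 2 * Lam N n := by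
  have hs2 : Real.sqrt 2 ≤ 2 := by
    rw [Real.sqrt_le_left (by norm_num)]; norm_num
  have h1 : Real.sqrt (min n (2 * N) : ℕ) ≤ Real.sqrt 2 * Real.sqrt (min n N : ℕ) := by
    rw [← Real.sqrt_mul (by norm_num)]
    apply Real.sqrt_le_sqrt
    have : min n (2 * N) ≤ 2 * min n N := by omega
    exact_mod_cast this
  by_cases hle : n ≤ N
  · -- the logarithm grows by `log 2`
    rcases Nat.eq_zero_or_pos n with h0 | h0
    · subst h0
      simp [Lam]
    have hn : (0 : ℝ) < n := by exact_mod_cast h0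
    have hN : (0 : ℝ) < N := by exact_mod_cast (lt_of_lt_of_le h0 hle)
    unfold Lam
    rw [min_eq_left hle, min_eq_left (by omega : n ≤ 2 * N)]
    have h2 : Real.log (((2 * N : ℕ) : ℝ) / n) = Real.log 2 + Real.log ((N : ℝ) / n) := by
      push_cast
      rw [mul_div_assoc, Real.log_mul (by norm_num) (by positivity)]
    have h3 : Real.log 2 ≤ 1 := by
      have := Real.log_two_lt_d9
      linarith
    have h4 : Real.sqrt (Real.log (((2 * N : ℕ) : ℝ) / n)) ≤
        2 * max 1 (Real.sqrt (Real.log ((N : ℝ) / n))) := by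
      rw [h2]
      set a := Real.log ((N : ℝ) / n) with ha
      have ha0 : 0 ≤ a := Real.log_nonneg (by rw [one_le_div hn]; exact_mod_cast hle)
      set t := max 1 (Real.sqrt a) with ht
      have t1 : 1 ≤ t := le_max_left _ _
      have t2 : a ≤ t ^ 2 := by
        have : Real.sqrt a ≤ t := le_max_right _ _
        calc a = Real.sqrt a ^ 2 := (Real.sq_sqrt ha0).symm
          _ ≤ t ^ 2 := by
            have := Real.sqrt_nonneg a
            nlinarith
      rw [Real.sqrt_le_left (by positivity)]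
      nlinarith
    have h5 : max 1 (Real.sqrt (Real.log (((2 * N : ℕ) : ℝ) / n))) ≤
        2 * max 1 (Real.sqrt (Real.log ((N : ℝ) / n))) := by
      apply max_le
      · have : (1 : ℝ) ≤ max 1 (Real.sqrt (Real.log ((N : ℝ) / n))) := le_max_left _ _
        linarith
      · exact h4
    calc _ ≤ Real.sqrt (n : ℕ) * (2 * max 1 (Real.sqrt (Real.log ((N : ℝ) / n)))) :=
          mul_le_mul_of_nonneg_left h5 (Real.sqrt_nonneg _)
      _ = _ := by ring
  · push Not at hle
    have h6 : max 1 (Real.sqrt (Real.log (((2 * N : ℕ) : ℝ) / n))) = 1 := by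
      apply max_eq_left
      rw [← Real.sqrt_one]
      apply Real.sqrt_le_sqrt
      have h7 : ((2 * N : ℕ) : ℝ) / n ≤ 2 := by
        have : (0 : ℝ) < n := by exact_mod_cast (by omega : 0 < n)
        rw [div_le_iff₀ this]
        push_cast
        have : (N : ℝ) ≤ n := by exact_mod_cast hle.le
        linarith
      rcases Nat.eq_zero_or_pos N with h0 | h0
      · subst h0; simp
      · have h8 : (0 : ℝ) < ((2 * N : ℕ) : ℝ) / n := by
          have : (0 : ℝ) < n := by exact_mod_cast (by omega : 0 < n)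
          have : (0 : ℝ) < ((2 * N : ℕ) : ℝ) := by exact_mod_cast (by omega : 0 < 2 * N)
          positivity
        calc Real.log (((2 * N : ℕ) : ℝ) / n) ≤ Real.log 2 := Real.log_le_log h8 h7
          _ ≤ 1 := by
            have := Real.log_two_lt_d9
            linarith
    have h9 : (1 : ℝ) ≤ max 1 (Real.sqrt (Real.log ((N : ℝ) / n))) := le_max_left _ _
    unfold Lam
    rw [h6, mul_one]
    calc Real.sqrt (min n (2 * N) : ℕ) ≤ Real.sqrt 2 * Real.sqrt (min n N : ℕ) := h1
      _ ≤ 2 * Real.sqrt (min n N : ℕ) := mul_le_mul_of_nonneg_right hs2 (Real.sqrt_nonneg _)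
      _ ≤ 2 * (Real.sqrt (min n N : ℕ) * max 1 (Real.sqrt (Real.log ((N : ℝ) / n)))) := by
        have := Real.sqrt_nonneg (min n N : ℕ)
        nlinarith

lemma linC (m : Type) [Fintype m] [DecidableEq m] (𝒜 : StarSubalgebra ℂ (Matrix m m ℂ))
    (J : Type) [Fintype J] [DecidableEq J] (A : J → Matrix m m ℂ) (hA : ∀ j, A j ∈ 𝒜)
    (hn : ∀ j, ‖A j‖ ≤ 1) (x : J → ℝ) (hx : ∀ j, |x j| ≤ 1) :
    ∃ ε : J → ℝ, (∀ j, ε j = 1 ∨ ε j = -1) ∧
      ‖∑ j, (((ε j - x j : ℝ)) : ℂ) • A j‖ ≤
        4 * (10 ^ 5 * Lam (Module.finrank ℂ 𝒜) (Fintype.card J)) := by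
  set N := Module.finrank ℂ 𝒜 with hN
  have key := lin_disc A (10 ^ 5 * Lam (2 * N) (Fintype.card J)) (min (Fintype.card J) (2 * N)) ?_ ?_ x hx
  · obtain ⟨ε, h1, h2⟩ := key
    refine ⟨ε, h1, ?_⟩
    have e : ∑ j, (((ε j - x j : ℝ)) : ℂ) • A j = ∑ j, (ε j - x j) • A j :=
      Finset.sum_congr rfl fun j _ => by
        ext a b
        simp
    rw [e]
    have := Lam_two N (Fintype.card J)
    linarith
  · intro F hF
    obtain ⟨ε, h1, h2⟩ := mainC m 𝒜 ((max (2 * N) 1 : ℕ) : ℝ)
      (by exact_mod_cast lt_of_lt_of_le Nat.zero_lt_one (le_max_right _ 1))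
      (by exact_mod_cast le_trans (by omega : N ≤ 2 * N) (le_max_left (2 * N) 1)) F (fun j => A j)
        (fun j => hA j) (fun j => hn j)
    refine ⟨fun j => if h : j ∈ F then ε ⟨j, h⟩ else 1, fun j => ?_, ?_⟩
    · by_cases h : j ∈ F
      · simp only [h, dite_true]; exact h1 _
      · simp only [h, dite_false]; exact Or.inl trivial
    · have e : ∑ j ∈ F, (if h : j ∈ F then ε ⟨j, h⟩ else 1) • A j = ∑ j : F, ((ε j : ℝ) : ℂ) • A j := by
        rw [← Finset.sum_coe_sort]
        refine Finset.sum_congr rfl fun j _ => ?_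
        ext a b
        simp
      rw [e]
      refine h2.trans (mul_le_mul_of_nonneg_left ?_ (by positivity))
      rw [← sqrt_gf_min]
      apply Real.sqrt_le_sqrt
      rw [Fintype.card_coe]
      exact gf_mono _ (by exact_mod_cast lt_of_lt_of_le Nat.zero_lt_one (le_max_right _ 1)) _ _ hF
  · rcases le_total (Fintype.card J) (2 * N) with h | h
    · left; rw [min_eq_left h]
    · right
      rw [min_eq_right h]
      have hle : Submodule.span ℝ (Set.range A) ≤
          (Subalgebra.toSubmodule 𝒜.toSubalgebra).restrictScalars ℝ := by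
        rw [Submodule.span_le]
        rintro _ ⟨j, rfl⟩
        exact hA j
      have h1 : Module.finrank ℝ ((Subalgebra.toSubmodule 𝒜.toSubalgebra).restrictScalars ℝ) = 2 * N := by
        have := Module.finrank_mul_finrank ℝ ℂ 𝒜
        rw [Complex.finrank_real_complex] at this
        rw [hN, this]
        rfl
      rw [← h1]
      exact Submodule.finrank_mono hle

lemma linG (G : Type) [Group G] [Fintype G] [DecidableEq G]
    (J : Type) [Fintype J] [DecidableEq J] (y : J → G → ℝ)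
    (hn : ∀ j, ‖∑ g, y j g • reg g‖ ≤ 1) (x : J → ℝ) (hx : ∀ j, |x j| ≤ 1) :
    ∃ ε : J → ℝ, (∀ j, ε j = 1 ∨ ε j = -1) ∧
      ‖∑ j, (ε j - x j) • ∑ g, y j g • reg g‖ ≤
        2 * (10 ^ 5 * Lam (Fintype.card G) (Fintype.card J)) := by
  obtain ⟨𝒜, hT, hx', hd⟩ := gra G
  exact linR G 𝒜 hT _ hd J (fun j => ∑ g, y j g • reg g) (fun j => by simp only [sum_reg]; exact hx' _) hn x hx

lemma linS (G : Type) [Group G] [Fintype G] [DecidableEq G]
    (c : G → ℝ) (hc : ∀ g, |c g| ≤ 1) (x : G → ℝ) (hx : ∀ g, |x g| ≤ 1) :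
    ∃ ε : G → ℝ, (∀ g, ε g = 1 ∨ ε g = -1) ∧
      ‖∑ g, ((ε g - x g) * c g) • reg g‖ ≤ 2 * (10 ^ 5 * Real.sqrt (Fintype.card G)) := by
  have e : ∀ j : G, ∑ g, (if g = j then c j else 0) • reg g = c j • reg j := by
    intro j
    rw [Finset.sum_eq_single j]
    · simp
    · intro b _ hb; simp [hb]
    · intro hh; exact absurd (Finset.mem_univ _) hh
  obtain ⟨ε, h1, h2⟩ := linG G G (fun j g => if g = j then c j else 0) (fun j => by
    rw [e j, norm_smul, Real.norm_eq_abs]
    calc |c j| * ‖reg j‖ ≤ 1 * 1 := mul_le_mul (hc j) (norm_reg j) (norm_nonneg _) zero_le_one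
      _ = 1 := one_mul 1) x hx
  refine ⟨ε, h1, ?_⟩
  simp only [e, smul_smul] at h2
  have h3 : (Fintype.card G : ℝ) / Fintype.card G = 1 :=
    div_self (by exact_mod_cast Fintype.card_ne_zero)
  rw [Lam, h3, Real.log_one, Real.sqrt_zero, max_eq_left zero_le_one, mul_one, min_self] at h2
  exact h2

end Pool.Agent.Q98.SPN
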