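import Pool.Agent.Q98.SPN.Stm

/-!
# Project SPN, second part: `*`-algebras of matrices (complex and real)

From `S_MAIN` to: for `n` contractions in a `*`-subalgebra of dimension `N` of `M_m(ℂ)` or `M_m(ℝ)` there are signs
with `‖∑ ε_j A_j‖ ≤ C √n max(1, √log(N/n))`. A job `X` proves `theorem X_ok : S_X`.
-/

set_option autoImplicit false

open scoped Matrix.Norms.L2Operator Matrix
open Finset

namespace Pool.Agent.Q98.SPN

/-- **SS**: a `*`-closed algebra of matrices is semisimple. Proof: it is a finite-dimensional algebra, so an Artinian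
ring and its Jacobson radical is nilpotent. If `x` is in the radical, so is `y = star x * x`; `y` is self-adjoint and
nilpotent, so `y = 0` (`‖y^2‖ = ‖y‖^2`) and `x = 0`. An Artinian ring with zero Jacobson radical is semisimple
(`IsArtinianRing` / `IsSemiprimaryRing` API, `IsSemisimpleRing`). -/
def S_SS : Prop := ∀ (m : Type) [Fintype m] [DecidableEq m]
  (𝒜 : StarSubalgebra ℂ (Matrix m m ℂ)), IsSemisimpleRing 𝒜

/-- **SWED** (uses SS): Wedderburn, `IsSemisimpleRing.exists_algEquiv_pi_matrix_of_isAlgClosed`, dimensions by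
`finrank`. -/
def S_SWED : Prop := ∀ (m : Type) [Fintype m] [DecidableEq m] (𝒜 : StarSubalgebra ℂ (Matrix m m ℂ)),
  ∃ (k : ℕ) (d : Fin k → ℕ) (_ : 𝒜 ≃ₐ[ℂ] ((i : Fin k) → Matrix (Fin (d i)) (Fin (d i)) ℂ)),
    (∀ i, 0 < d i) ∧ ∑ i, d i ^ 2 = Module.finrank ℂ 𝒜

/-- **INT** (an intertwiner). Proof: let `j₀ : Fin (d i)`; for a vector `u` let `Z u` be the tuple with the matrix whose
column `j₀` is `u` (other columns `0`) at `i` and `0` at the other places. `e = Φ⁻¹ (Z e_(j₀)) ≠ 0`, so there is a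
vector `v : m → ℂ` with `e v ≠ 0`. `T u := Φ⁻¹ (Z u) v` is linear in `u`; `x T u = Φ⁻¹ (Φ x * Z u) v = T (Φ x i u)`.
If `T u = 0` and `u ≠ 0`, choose a matrix `B` with `B u = e_(j₀)` and `x = Φ⁻¹ (B at i)`; then
`0 = x T u = T e_(j₀) = e v`, a contradiction. -/
def S_INT : Prop := ∀ (m : Type) [Fintype m] [DecidableEq m] (𝒜 : StarSubalgebra ℂ (Matrix m m ℂ))
  (k : ℕ) (d : Fin k → ℕ) (Φ : 𝒜 ≃ₐ[ℂ] ((i : Fin k) → Matrix (Fin (d i)) (Fin (d i)) ℂ)) (i : Fin k),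
  0 < d i → ∃ T : Matrix m (Fin (d i)) ℂ, (∀ x : 𝒜, (x : Matrix m m ℂ) * T = T * Φ x i) ∧
    ∀ u : Fin (d i) → ℂ, T *ᵥ u = 0 → u = 0

/-- **SQ** (square root of a Gram matrix). Proof: `Tᴴ T` is positive definite (`T` injective), so `= Sᴴ S` with an
invertible `S` (`CFC.sqrt`, or `Matrix.PosSemidef`/`PosDef` API). -/
def S_SQ : Prop := ∀ (m : Type) [Fintype m] [DecidableEq m] (d : ℕ) (T : Matrix m (Fin d) ℂ),
  (∀ u : Fin d → ℂ, T *ᵥ u = 0 → u = 0) →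
  ∃ S : (Matrix (Fin d) (Fin d) ℂ)ˣ,
    (S : Matrix (Fin d) (Fin d) ℂ)ᴴ * (S : Matrix (Fin d) (Fin d) ℂ) = Tᴴ * T

/-- **SMOD** (uses SWED, INT, SQ). Proof: `Φ` from SWED, `T i` from INT, `S i` from SQ with `h = Sᴴ S = Tᴴ T`. For
`x ∈ 𝒜`: `h Φ(x^*)_i = Tᴴ x^* T = (x T)ᴴ T = Φ(x)_iᴴ h`. Put `Ψ x i = S (Φ x i) S⁻¹` (an algebra isomorphism). Then
`(Ψ x i)ᴴ = S⁻¹ᴴ Φ(x)_iᴴ Sᴴ = S⁻¹ᴴ h Φ(x^*)_i h⁻¹ Sᴴ = S Φ(x^*)_i S⁻¹ = Ψ (x^*) i`. -/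
def S_SMOD : Prop := ∀ (m : Type) [Fintype m] [DecidableEq m] (𝒜 : StarSubalgebra ℂ (Matrix m m ℂ)),
  ∃ (k : ℕ) (d : Fin k → ℕ) (Ψ : 𝒜 ≃ₐ[ℂ] ((i : Fin k) → Matrix (Fin (d i)) (Fin (d i)) ℂ)),
    (∀ i, 0 < d i) ∧ ∑ i, d i ^ 2 = Module.finrank ℂ 𝒜 ∧ ∀ x i, Ψ (star x) i = (Ψ x i)ᴴ

/-- **ISO** (a `*`-isomorphism is isometric). Proof: Mathlib: an injective `*`-homomorphism between C*-algebras is
isometric (`NonUnitalStarAlgHom.norm_map` / `StarAlgHom`); or by hand: for `c > 0` and `y = c² - x^* x`: for matrices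
`‖x‖ ≤ c` iff `c² - xᴴ x` is positive semidefinite iff all `c² - xᴴ x + t`, `t > 0`, are invertible in the algebra
(inverses of matrices are polynomials in the matrix), and the invertibility in `𝒜`, in `M_m` and in the product agree;
or by the minimal polynomial of `x^* x`, whose roots are its eigenvalues. -/
def S_ISO : Prop := ∀ (m : Type) [Fintype m] [DecidableEq m] (𝒜 : StarSubalgebra ℂ (Matrix m m ℂ))
  (k : ℕ) (d : Fin k → ℕ) (Ψ : 𝒜 ≃ₐ[ℂ] ((i : Fin k) → Matrix (Fin (d i)) (Fin (d i)) ℂ)),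
  (∀ x i, Ψ (star x) i = (Ψ x i)ᴴ) → ∀ x : 𝒜,
    (∀ i, ‖Ψ x i‖ ≤ ‖(x : Matrix m m ℂ)‖) ∧
    ∀ c : ℝ, 0 ≤ c → (∀ i, ‖Ψ x i‖ ≤ c) → ‖(x : Matrix m m ℂ)‖ ≤ c

/-- **MAINC** (uses MAIN, SMOD, ISO). Proof: apply MAIN to `ι = Fin k` and the tuples `Ψ (A j)`; the signed sum of the
images is the image of the signed sum. -/
def S_MAINC : Prop := ∀ (m : Type) [Fintype m] [DecidableEq m] (𝒜 : StarSubalgebra ℂ (Matrix m m ℂ))
  (N : ℝ), 0 < N → (Module.finrank ℂ 𝒜 : ℝ) ≤ N →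
  ∀ (J : Type) [Fintype J] [DecidableEq J] (A : J → Matrix m m ℂ),
    (∀ j, A j ∈ 𝒜) → (∀ j, ‖A j‖ ≤ 1) →
    ∃ ε : J → ℝ, (∀ g, ε g = 1 ∨ ε g = -1) ∧
      ‖∑ g, ((ε g : ℝ) : ℂ) • A g‖ ≤ 10 ^ 5 * Real.sqrt (gf N (Fintype.card J))

/-- **CPX** (complexification). Proof: `𝒞` = the complex span of the images `x.map (↑)`, `x ∈ 𝒜`; it is closed under
products, `1`, and conjugate transposes (`(c x)ᴴ = c̄ xᵀ`); its dimension is at most `finrank ℝ 𝒜` (the images of a real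
basis span). -/
def S_CPX : Prop := ∀ (m : Type) [Fintype m] [DecidableEq m] (𝒜 : Subalgebra ℝ (Matrix m m ℝ)),
  (∀ x ∈ 𝒜, xᵀ ∈ 𝒜) →
  ∃ 𝒞 : StarSubalgebra ℂ (Matrix m m ℂ), (∀ x ∈ 𝒜, x.map (fun t : ℝ => (t : ℂ)) ∈ 𝒞) ∧
    Module.finrank ℂ 𝒞 ≤ Module.finrank ℝ 𝒜

/-- **RNM** (the norm of a real matrix is its norm as a complex matrix). Proof: for a complex vector `v = a + i b`:
`‖A v‖² = ‖A a‖² + ‖A b‖² ≤ ‖A‖² ‖v‖²`; conversely real vectors are complex vectors. -/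
def S_RNM : Prop := ∀ (m : Type) [Fintype m] [DecidableEq m] (A : Matrix m m ℝ),
  ‖A.map (fun t : ℝ => (t : ℂ))‖ = ‖A‖

/-- **MAINR** (uses MAINC, CPX, RNM). -/
def S_MAINR : Prop := ∀ (m : Type) [Fintype m] [DecidableEq m] (𝒜 : Subalgebra ℝ (Matrix m m ℝ))
  (N : ℝ), (∀ x ∈ 𝒜, xᵀ ∈ 𝒜) → 0 < N → (Module.finrank ℝ 𝒜 : ℝ) ≤ N →
  ∀ (J : Type) [Fintype J] [DecidableEq J] (A : J → Matrix m m ℝ),
    (∀ j, A j ∈ 𝒜) → (∀ j, ‖A j‖ ≤ 1) →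
    ∃ ε : J → ℝ, (∀ g, ε g = 1 ∨ ε g = -1) ∧
      ‖∑ g, ε g • A g‖ ≤ 10 ^ 5 * Real.sqrt (gf N (Fintype.card J))

/-- the matrix of the left convolution with a real function -/
def convR {G : Type} [Group G] (x : G → ℝ) : Matrix G G ℝ := Matrix.of fun h k => x (h * k⁻¹)

/-- **GRA** (the regular representation). Proof: `𝒜` = the matrices `convR x`; `convR x * convR y = convR (x * y)`
(convolution), `convR (δ_1) = 1`, `(convR x)ᵀ = convR (fun g => x g⁻¹)`; it is the range of a linear map from `G → ℝ`,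
so its dimension is at most `|G|`. -/
def S_GRA : Prop := ∀ (G : Type) [Group G] [Fintype G] [DecidableEq G],
  ∃ 𝒜 : Subalgebra ℝ (Matrix G G ℝ), (∀ x ∈ 𝒜, xᵀ ∈ 𝒜) ∧ (∀ x : G → ℝ, convR x ∈ 𝒜) ∧
    Module.finrank ℝ 𝒜 ≤ Fintype.card G

end Pool.Agent.Q98.SPN
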