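import Pool.Agent.H172R2.GS.HAM

/-!
# Project SPN (helper98): Spencer bounds in matrix algebras of dimension `N` and group algebras

Row MP_1157dd_an (matrix Spencer). The plan generalises `Pool.Agent.H172R2.GS.Defs` (fourth moments) to all
moments. Goal: for `n` contractions in `⊕ M_{d_i}(ℂ)`, `∑ d_i² = N`, there are signs with
`‖∑ ε_j A_j‖ ≤ C √n max(1, √log(N/n))`; with the regular representation: Group Spencer for every finite group.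

Every statement is a `Prop`; a job `X` proves `theorem X_ok : S_X` in its own file `Pool/Agent/Q98/SPN/X.lean`
(from the statements named in its docstring as hypotheses). All matrices carry the `L²` operator norm.
-/

set_option autoImplicit false

open scoped Matrix.Norms.L2Operator Matrix
open Finset

namespace Pool.Agent.Q98.SPN

open Pool.Agent.H172R2.GS (sg XX arrays)

/-- `tk κ Y = Tr (Y^* Y)^κ`, the sum of the `2κ`-th powers of the singular values -/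
noncomputable def tk {d : ℕ} (κ : ℕ) (Y : Matrix (Fin d) (Fin d) ℂ) : ℝ :=
  (Matrix.trace ((Yᴴ * Y) ^ κ)).re

/-- **SM** (scalar moments of a sum of signs). Proof: for `t > 0` and real `x`: `x^(2κ)/(2κ)! ≤ cosh(t x)/t^(2κ)`
(one term of the series of cosh; all terms are nonnegative). `∑_ε exp(t ∑ sg) = (e^t + e^(-t))^m = (2 cosh t)^m`
(`Finset.prod_univ_sum` as in `HAMaux.sum_eq`), the same for `-t`, so `∑_ε cosh(t ∑ sg) = (2 cosh t)^m ≤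
2^m exp(m t²/2)` (`Real.cosh_le_exp_half_sq`). Take `t² = 2κ/m`: `∑_ε (∑ sg)^(2κ) ≤ (2κ)! (m/(2κ))^κ 2^m e^κ` and
`(2κ)! ≤ (2κ)^(2κ)` (`Nat.factorial_le_pow`). -/
def S_SM : Prop := ∀ (J : Type) [Fintype J] [DecidableEq J] (κ : ℕ), 1 ≤ Fintype.card J → 1 ≤ κ →
  ∑ ε : J → Bool, (∑ g, sg (ε g)) ^ (2 * κ) ≤
    2 ^ (Fintype.card J) * (2 * Real.exp 1 * κ * Fintype.card J) ^ κ

/-- **WORD** (the trace moments are dominated by the scalar ones). Proof: by induction on `κ` there are a finite type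
`Ω`, exponents `a : Ω → J → ℕ` and matrices `P : Ω → Matrix` with `‖P ω‖ ≤ 1` such that for all `ε`
`((XX A ε)ᴴ * XX A ε) ^ κ = ∑_ω ((∏_g sg (ε g) ^ a ω g : ℝ) : ℂ) • P ω` and
`(∑_g sg (ε g)) ^ (2κ) = ∑_ω ∏_g sg (ε g) ^ a ω g` (step: `Ω' = Ω × J × J`, `P' = P * (A g)ᴴ * A h`; note that
`(XX A ε)ᴴ = ∑ sg (ε g) • (A g)ᴴ` and `‖(A g)ᴴ‖ = ‖A g‖`). Now `∑_ε ∏_g sg (ε g) ^ a g = ∏_g (1 + (-1)^(a g)) ≥ 0`
(`Finset.prod_univ_sum`) and `|Re Tr P| ≤ d ‖P‖` (each diagonal entry is at most the norm). Sum over `ε`, exchange. -/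
def S_WORD : Prop := ∀ (J : Type) [Fintype J] [DecidableEq J] (d : ℕ)
  (A : J → Matrix (Fin d) (Fin d) ℂ) (κ : ℕ), (∀ g, ‖A g‖ ≤ 1) →
    ∑ ε : J → Bool, tk κ (XX A ε) ≤ d * ∑ ε : J → Bool, (∑ g, sg (ε g)) ^ (2 * κ)

/-- **TKN**: `Yᴴ Y` and its powers are positive semidefinite (`Matrix.posSemidef_conjTranspose_mul_self`,
`Matrix.PosSemidef.pow`), the trace of such a matrix is nonnegative. -/
def S_TKN : Prop := ∀ (d κ : ℕ) (Y : Matrix (Fin d) (Fin d) ℂ), 0 ≤ tk κ Y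

/-- **GOOD** (uses SM, WORD, TKN). Proof: `∑_ε ∑_i d_i tk κ (Y_i) ≤ ∑_i d_i² 2^m (2eκm)^κ ≤ N 2^m (2eκm)^κ =: R 2^m`;
if more than half of the `ε` had `∑_i d_i tk κ > 2R`, the sum would be larger than `2^m R` (case `R = 0`: then all
`d_i = 0` and everything is `0`). -/
def S_GOOD : Prop := ∀ (ι : Type) [Fintype ι] [DecidableEq ι] (d : ι → ℕ) (N : ℝ),
  ((∑ i, d i ^ 2 : ℕ) : ℝ) ≤ N → ∀ (κ : ℕ), 1 ≤ κ → ∀ (J : Type) [Fintype J] [DecidableEq J],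
    1 ≤ Fintype.card J → ∀ (A : J → (i : ι) → Matrix (Fin (d i)) (Fin (d i)) ℂ),
    (∀ g i, ‖A g i‖ ≤ 1) →
    ∃ E : Finset (J → Bool), (2 : ℝ) ^ (Fintype.card J) / 2 ≤ E.card ∧
      ∀ ε ∈ E, ∑ i, (d i : ℝ) * tk κ (XX (fun g => A g i) ε) ≤
        2 * N * (2 * Real.exp 1 * κ * Fintype.card J) ^ κ

/-- **SPEC** (spectral decomposition in the form needed for DEC). Proof: `Yᴴ Y` is Hermitian;
`Matrix.IsHermitian.spectral_theorem`, `U` = `eigenvectorUnitary`, `l` = `eigenvalues` (nonnegative: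
`Matrix.PosSemidef.eigenvalues_nonneg`), `(YU)ᴴ (YU) = diagonal l`; the trace of `(Yᴴ Y)^κ = U diagonal(l^κ) Uᴴ` is
`∑ l_j^κ`. -/
def S_SPEC : Prop := ∀ (d : ℕ) (Y : Matrix (Fin d) (Fin d) ℂ),
  ∃ (U : Matrix (Fin d) (Fin d) ℂ) (l : Fin d → ℝ), U * Uᴴ = 1 ∧ Uᴴ * U = 1 ∧ (∀ j, 0 ≤ l j) ∧
    (Y * U)ᴴ * (Y * U) = Matrix.diagonal (fun j => ((l j : ℝ) : ℂ)) ∧
    ∀ κ : ℕ, tk κ Y = ∑ j, l j ^ κ

/-- **COLS** (selected columns). Let `Q` have `Qᴴ Q = diagonal l`, `l ≥ 0`. For a set `S` of columns with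
`l j ≤ b²` on `S`, the submatrix of the columns in `S` has norm `≤ b`: `‖Q_S‖² = ‖Q_Sᴴ Q_S‖ = ‖diagonal l|_S‖ =
max_S l ≤ b²` (`Matrix.l2_opNorm_conjTranspose_mul_self`, `Matrix.l2_opNorm_diagonal`). `e` enumerates `S`. -/
def S_COLS : Prop := ∀ (d : ℕ) (Q : Matrix (Fin d) (Fin d) ℂ) (l : Fin d → ℝ) (b : ℝ), 0 ≤ b →
  Qᴴ * Q = Matrix.diagonal (fun j => ((l j : ℝ) : ℂ)) →
  ∀ (r : ℕ) (e : Fin r → Fin d), Function.Injective e → (∀ j, l (e j) ≤ b ^ 2) →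
    ‖Q.submatrix id e‖ ≤ b

/-- **DEC** (decomposition into a small part and low rank parts; uses SPEC, COLS). Proof: `U`, `l` from SPEC. For
`k < K` let `S_k = {j : (2^k s)² < l j ≤ (2^(k+1) s)²}`, `r k = |S_k|`, `e_k` an enumeration, `V k` = the columns of `U`
in `S_k`, `W k` = the columns of `Y U` in `S_k`, so `‖V k‖ ≤ 1` (COLS with `l = 1`) and `‖W k‖ ≤ 2^(k+1) s`. All
`l j ≤ (2^K s)²` because `l j ^ κ ≤ tk κ Y < (4^K s²)^κ` (`κ ≥ 1`); so every `j` is in exactly one `S_k` or has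
`l j ≤ s²`. `Y = (Y U) Uᴴ = ∑_j (column j of YU) (column j of U)ᴴ`, hence `Y - ∑_k W_k V_kᴴ = (Y U)_T (U_T)ᴴ` with
`T = {j : l j ≤ s²}`, of norm `≤ s · 1`. Finally `∑_k r_k (4^k s²)^κ ≤ ∑_k ∑_(j ∈ S_k) l j ^ κ ≤ tk κ Y`. -/
def S_DEC : Prop := ∀ (d : ℕ) (Y : Matrix (Fin d) (Fin d) ℂ) (s : ℝ) (K κ : ℕ), 0 < s → 1 ≤ κ →
  tk κ Y < (4 ^ K * s ^ 2) ^ κ →
  ∃ (r : ℕ → ℕ) (W V : (k : ℕ) → Matrix (Fin d) (Fin (r k)) ℂ),
    ‖Y - ∑ k ∈ range K, W k * (V k)ᴴ‖ ≤ s ∧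
    (∀ k, ‖W k‖ ≤ 2 ^ (k + 1) * s ∧ ‖V k‖ ≤ 1) ∧
    ∑ k ∈ range K, (r k : ℝ) * (4 ^ k * s ^ 2) ^ κ ≤ tk κ Y

/-- **NET** (nets of balls in a finite dimensional real normed space). Proof: induction on `j`. `j = 1`, radius `2δ`:
a maximal `δ`-separated subset of the ball of radius `2δ` has at most `5^dim` points
(`Besicovitch.card_le_of_separated` after scaling by `1/δ`) and is a `δ`-net. Step: a net for radius `2^(j+1) δ` with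
precision `2^j δ` (the case `1` with `2^j δ` in place of `δ`), then translate the net for radius `2^j δ`.
`j = 0`: `F = {0}`. -/
def S_NET : Prop := ∀ (E : Type) [NormedAddCommGroup E] [NormedSpace ℝ E] [FiniteDimensional ℝ E]
  (j : ℕ) (δ : ℝ), 0 < δ →
  ∃ F : Finset E, F.card ≤ 5 ^ (Module.finrank ℝ E * j) ∧
    ∀ x : E, ‖x‖ ≤ 2 ^ j * δ → ∃ y ∈ F, ‖x - y‖ ≤ δ

/-- **LR** (nets of low rank matrices; uses NET). Proof: the real dimension of `Matrix (Fin d) (Fin r) ℂ` is `2 d r`.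
NET for `W`: radius `2^(k+1) s = 2^(2k+2) · s/2^(k+1)`, precision `s/2^(k+1)`; NET for `V`: radius
`1 ≤ 2^(2k+3) · 2^(-(2k+3))`, precision `2^(-(2k+3))`. `‖W Vᴴ - W' V'ᴴ‖ ≤ ‖W - W'‖ ‖V‖ + ‖W'‖ ‖V - V'‖` and
`‖W'‖ ≤ ‖W‖ + ‖W - W'‖ ≤ 2^(k+2) s`, so it is at most `s/2^(k+1) + s/2^(k+1)`. The number of pairs is at most
`5^(2dr(2k+2)) 5^(2dr(2k+3)) = 5^(2dr(4k+5))`. -/
def S_LR : Prop := ∀ (d r k : ℕ) (s : ℝ), 0 < s →
  ∃ F : Finset (Matrix (Fin d) (Fin d) ℂ), F.card ≤ 5 ^ (2 * (d * r) * (4 * k + 5)) ∧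
    ∀ W V : Matrix (Fin d) (Fin r) ℂ, ‖W‖ ≤ 2 ^ (k + 1) * s → ‖V‖ ≤ 1 →
      ∃ Z ∈ F, ‖W * Vᴴ - Z‖ ≤ s / 2 ^ k

/-- **CNT** (number of arrays `r : ι → ℕ` with `∑ r ≤ q`). Proof: `card · z^q ≤ ∑_(r ∈ arrays) z^(∑ r) ≤
∑_(r ∈ piFinset (range (q+1))) ∏ z^(r i) = ∏_i ∑_(j ≤ q) z^j ≤ (1/(1-z))^|ι| ≤ exp(2z|ι|)`, as
`1/(1-z) ≤ 1 + 2z ≤ exp(2z)` for `z ≤ 1/2`. -/
def S_CNT : Prop := ∀ (ι : Type) [Fintype ι] [DecidableEq ι] (q : ℕ) (z : ℝ), 0 < z → z ≤ 1 / 2 →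
  ((arrays ι q).card : ℝ) * z ^ q ≤ Real.exp (2 * z * Fintype.card ι)

/-- **LEV** (cover of the parts of level `k` of all blocks; uses LR, CNT). Proof: for every `r ∈ arrays ι q` with
`∑ d_i r_i ≤ q` take the product (`Fintype.piFinset`) of the finite sets of LR for `(d i, r i, k, s)`; it has at most
`∏ 5^(2 d_i r_i (4k+5)) ≤ 5^(2(4k+5)q)` elements. `F` = the union over these `r` (`Finset.biUnion`). -/
def S_LEV : Prop := ∀ (ι : Type) [Fintype ι] [DecidableEq ι] (d : ι → ℕ) (q k : ℕ) (z s : ℝ),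
  0 < z → z ≤ 1 / 2 → 0 < s →
  ∃ F : Finset ((i : ι) → Matrix (Fin (d i)) (Fin (d i)) ℂ),
    (F.card : ℝ) * z ^ q ≤ Real.exp (2 * z * Fintype.card ι) * 5 ^ (2 * (4 * k + 5) * q) ∧
    ∀ (r : ι → ℕ) (W V : (i : ι) → Matrix (Fin (d i)) (Fin (r i)) ℂ),
      ∑ i, r i ≤ q → ∑ i, d i * r i ≤ q →
      (∀ i, ‖W i‖ ≤ 2 ^ (k + 1) * s) → (∀ i, ‖V i‖ ≤ 1) →
      ∃ Z ∈ F, ∀ i, ‖W i * (V i)ᴴ - Z i‖ ≤ s / 2 ^ k

/-- the number of columns at level `k` -/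
noncomputable def qq (m κ k : ℕ) : ℕ := ⌊2 * (m : ℝ) / (16 ^ k * 100 ^ κ)⌋₊

/-- the parameter `z` of level `k` -/
noncomputable def zz (κ k : ℕ) : ℝ := 1 / (400 * 2 ^ k * Real.exp κ)

/-- **LOGC** (size of the cover of one level). Let `p = 2 N z` etc.: if `F.card · z^q ≤ exp(2 z c) 5^(2(4k+5)q)` with
`z = zz κ k`, `q = qq m κ k`, `c ≤ m e^κ`, then
`F.card ≤ exp(m/(200·2^k) + (m/16^k) · 2(22.1 + 13.6 k + κ)/100^κ)`. Proof: `2 z c ≤ m/(200·2^k)`;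
`z^(-q) = exp(q (log 400 + k log 2 + κ))`, `5^(2(4k+5)q) = exp(q (16.1 + 12.88 k))` (`log 400 ≤ 6`, `log 2 ≤ 0.7`,
`log 5 ≤ 1.61`), `q ≤ 2m/(16^k 100^κ)`. -/
def S_LOGC : Prop := ∀ (m κ k : ℕ) (c B : ℝ), 0 ≤ c → c ≤ m * Real.exp κ → 0 ≤ B →
  B * (zz κ k) ^ (qq m κ k) ≤ Real.exp (2 * zz κ k * c) * 5 ^ (2 * (4 * k + 5) * qq m κ k) →
  B ≤ Real.exp (m / (200 * 2 ^ k) + m / 16 ^ k * (2 * (22.1 + 13.6 * k + κ) / 100 ^ κ))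

/-- **NUM**: `∑_(k<K) [m/(200·2^k) + (m/16^k) 2(22.1 + 13.6k + κ)/100^κ] ≤ m/50` for `κ ≥ 2`. Proof: `∑ 2^(-k) ≤ 2`,
`∑ 16^(-k) ≤ 16/15`, `∑ k 16^(-k) ≤ 16/225`; `(22.1 + κ) · 16/15 + 13.6 · 16/225 ≤ 24.6 + 1.07 κ` and
`2 (24.6 + 1.07 κ) ≤ 100^κ/100` for `κ ≥ 2` (`κ ≤ 2^κ`). -/
def S_NUM : Prop := ∀ (m κ K : ℕ), 2 ≤ κ →
  ∑ k ∈ range K, ((m : ℝ) / (200 * 2 ^ k) + (m : ℝ) / 16 ^ k * (2 * (22.1 + 13.6 * k + κ) / 100 ^ κ)) ≤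
    (m : ℝ) / 50

/-- the scale: `s² = 200 e² κ m` -/
noncomputable def sc (m κ : ℕ) : ℝ := Real.sqrt (200 * Real.exp 2 * κ * m)

/-- **COVL** (the levels of one tuple; uses DEC, TKN). Write `s = sc m κ`, `M = 2eκm`, so `s² = 100 e M`. DEC applies
to every block, because `tk κ (Y i) ≤ ∑ d_i tk κ (Y_i) ≤ 2 N M^κ < (4^K s²)^κ` (`d_i ≥ 1`, `tk ≥ 0`). For `k < K`:
`(∑_i d_i r_(k,i)) (4^k s²)^κ ≤ ∑_i d_i tk κ (Y_i) ≤ 2 N M^κ`, hence `∑_i d_i r_(k,i) ≤ 2 m e^κ / (4^k·100 e)^κ ≤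
2m/(16^k 100^κ)` (`N ≤ m e^κ`, `κ ≥ 2`), so `≤ qq m κ k` (`Nat.le_floor`). -/
def S_COVL : Prop := ∀ (ι : Type) [Fintype ι] [DecidableEq ι] (d : ι → ℕ) (m κ K : ℕ) (N : ℝ),
  (∀ i, 0 < d i) → 0 < m → 2 ≤ κ → N ≤ m * Real.exp κ →
  2 * N * (2 * Real.exp 1 * κ * m) ^ κ < (4 ^ K * sc m κ ^ 2) ^ κ →
  ∀ Y : (i : ι) → Matrix (Fin (d i)) (Fin (d i)) ℂ,
    ∑ i, (d i : ℝ) * tk κ (Y i) ≤ 2 * N * (2 * Real.exp 1 * κ * m) ^ κ →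
    ∃ (r : ℕ → ι → ℕ) (W V : (k : ℕ) → (i : ι) → Matrix (Fin (d i)) (Fin (r k i)) ℂ),
      (∀ i, ‖Y i - ∑ k ∈ range K, W k i * (V k i)ᴴ‖ ≤ sc m κ) ∧
      (∀ k i, ‖W k i‖ ≤ 2 ^ (k + 1) * sc m κ ∧ ‖V k i‖ ≤ 1) ∧
      ∀ k ∈ range K, ∑ i, d i * r k i ≤ qq m κ k

/-- **COV** (cover of the set of tuples with bounded moments; uses COVL, LEV, LOGC, NUM). Choose `K` with
`2 N M^κ < (4^K s²)^κ`, `M = 2eκm`, `s = sc m κ` (if `2 N M^κ ≤ 0` any `K`; in general `4^(Kκ) → ∞`). LEV with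
`z = zz κ k ≤ 1/2`, `q = qq m κ k` gives `F_k` for each `k < K`; `F` = the image of `Fintype.piFinset` over `Fin K` of
the `F_k` (or `Finset.pi`) under the sum `Z = ∑_(k<K) Z_k`. For `Y` take `W, V, r` from COVL (`∑ r ≤ ∑ d r` as
`d_i ≥ 1`): `‖Y_i - Z_i‖ ≤ s + ∑_(k<K) s/2^k ≤ 3s`. `|ι| ≤ ∑ d_i² ≤ N ≤ m e^κ`, so by LOGC (`B = |F_k|`, `c = |ι|`)
and NUM `|F| ≤ ∏ |F_k| ≤ exp(m/50)`. -/
def S_COV : Prop := ∀ (ι : Type) [Fintype ι] [DecidableEq ι] (d : ι → ℕ) (m κ : ℕ) (N : ℝ),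
  (∀ i, 0 < d i) → ((∑ i, d i ^ 2 : ℕ) : ℝ) ≤ N → 0 < m → 2 ≤ κ → N ≤ m * Real.exp κ →
  ∃ F : Finset ((i : ι) → Matrix (Fin (d i)) (Fin (d i)) ℂ),
    (F.card : ℝ) ≤ Real.exp ((m : ℝ) / 50) ∧
    ∀ Y : (i : ι) → Matrix (Fin (d i)) (Fin (d i)) ℂ,
      ∑ i, (d i : ℝ) * tk κ (Y i) ≤ 2 * N * (2 * Real.exp 1 * κ * m) ^ κ →
      ∃ Z ∈ F, ∀ i, ‖Y i - Z i‖ ≤ 3 * sc m κ

/-- **PC** (partial colouring; uses GOOD, COV and `Pool.Agent.H172R2.GS.HAM_ok`). Proof: `E` from GOOD, map every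
`ε ∈ E` to a `Z ∈ F` of COV for `Y = XX A ε`; by the pigeonhole principle
(`Finset.exists_lt_card_fiber_of_mul_lt_card_of_maps_to` or a sum over fibres) some fibre `E'` has
`|E'| ≥ |E|/|F| ≥ 2^m/2 · exp(-m/50)`. HAM gives `a, b ∈ E'` that differ in at least `m/10` places; take
`x g = (sg (a g) - sg (b g))/2 ∈ {0, 1, -1}`; `∑ x g • A g i = (XX a - XX b)/2` has norm at most
`(3 sc + 3 sc)/2`. -/
def S_PC : Prop := ∀ (ι : Type) [Fintype ι] [DecidableEq ι] (d : ι → ℕ) (κ : ℕ) (N : ℝ),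
  (∀ i, 0 < d i) → ((∑ i, d i ^ 2 : ℕ) : ℝ) ≤ N → 2 ≤ κ →
  ∀ (J : Type) [Fintype J] [DecidableEq J] (A : J → (i : ι) → Matrix (Fin (d i)) (Fin (d i)) ℂ),
    4 ≤ Fintype.card J → N ≤ Fintype.card J * Real.exp κ → (∀ g i, ‖A g i‖ ≤ 1) →
    ∃ x : J → ℝ, (∀ g, x g = 0 ∨ x g = 1 ∨ x g = -1) ∧
      (Fintype.card J : ℝ) ≤ 10 * ((univ.filter fun g => x g ≠ 0).card : ℝ) ∧
      ∀ i, ‖∑ g, ((x g : ℝ) : ℂ) • A g i‖ ≤ 3 * sc (Fintype.card J) κ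

/-- `gf N x = x · max 1 (log (N/x))` -/
noncomputable def gf (N x : ℝ) : ℝ := x * max 1 (Real.log (N / x))

/-- **GF** (properties of `gf`). Let `N > 0`. (a) monotone on `x > 0`: for `0 < x ≤ y`, `gf N x ≤ gf N y`. Proof: if
`log(N/y) ≥ 1`: put `u = y/x ≥ 1`, `log(N/x) = log(N/y) + log u ≤ log(N/y) + (u - 1) ≤ u log(N/y)`; if
`log(N/y) < 1`: `max 1 (log(N/x)) ≤ 1 + log u ≤ u`. (b) `gf N (9/10 x) ≤ (0.9975)² gf N x`: `log(10/9) ≤ 0.1054`,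
`max 1 (L + 0.1054) ≤ 1.1054 max 1 L` and `0.9 · 1.1054 ≤ 0.9975²`. (c) `x ≤ gf N x`. (d) for `x ≥ 1` there is
`κ ≥ 2` with `N ≤ x e^κ` and `κ x ≤ 2 gf N x`: `κ = 2` if `log(N/x) ≤ 2`, else `κ = ⌈log(N/x)⌉`. -/
def S_GF : Prop := ∀ N : ℝ, 0 < N →
  (∀ x y : ℝ, 0 < x → x ≤ y → gf N x ≤ gf N y) ∧
  (∀ x : ℝ, 0 < x → gf N (9 / 10 * x) ≤ 0.9975 ^ 2 * gf N x) ∧
  (∀ x : ℝ, 0 < x → x ≤ gf N x) ∧
  ∀ x : ℝ, 0 < x → ∃ κ : ℕ, 2 ≤ κ ∧ N ≤ x * Real.exp κ ∧ κ * x ≤ 2 * gf N x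

/-- **MAINP** (full colouring for `d_i > 0`; uses PC, GF), with `C = 10^5`. Proof: strong induction on `m = |J|`, for
all `J` at once: signs with norms `≤ C √(gf N m)` (`m = 0` is trivial, bound `0`). `m < 4`: any signs, norm
`≤ m ≤ 3 √m ≤ 3 √(gf N m)`. `m ≥ 4`: `κ` from GF (d), `x` from PC; the norm of the coloured part is
`≤ 3 sc m κ ≤ 3 √(200 e² · 2 gf N m) ≤ 170 √(gf N m)`. `J' = {g // x g = 0}` has `m' ≤ 9m/10` elements; by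
induction it has signs with norm `≤ C √(gf N m') ≤ C √(gf N (9m/10)) ≤ 0.9975 C √(gf N m)` (if `m' = 0`: norm `0`).
Together `≤ (0.9975 C + 170) √(gf N m) ≤ C √(gf N m)`. -/
def S_MAINP : Prop := ∀ (ι : Type) [Fintype ι] [DecidableEq ι] (d : ι → ℕ) (N : ℝ), 0 < N → (∀ i, 0 < d i) →
  ((∑ i, d i ^ 2 : ℕ) : ℝ) ≤ N →
  ∀ (J : Type) [Fintype J] [DecidableEq J] (A : J → (i : ι) → Matrix (Fin (d i)) (Fin (d i)) ℂ),
    (∀ g i, ‖A g i‖ ≤ 1) →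
    ∃ ε : J → ℝ, (∀ g, ε g = 1 ∨ ε g = -1) ∧
      ∀ i, ‖∑ g, ((ε g : ℝ) : ℂ) • A g i‖ ≤ 10 ^ 5 * Real.sqrt (gf N (Fintype.card J))

/-- **MAIN** (uses MAINP). Proof: apply MAINP to the subtype `{i // 0 < d i}`; a block with `d i = 0` is a matrix over
an empty type and has norm `0`. -/
def S_MAIN : Prop := ∀ (ι : Type) [Fintype ι] [DecidableEq ι] (d : ι → ℕ) (N : ℝ), 0 < N →
  ((∑ i, d i ^ 2 : ℕ) : ℝ) ≤ N →
  ∀ (J : Type) [Fintype J] [DecidableEq J] (A : J → (i : ι) → Matrix (Fin (d i)) (Fin (d i)) ℂ),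
    (∀ g i, ‖A g i‖ ≤ 1) →
    ∃ ε : J → ℝ, (∀ g, ε g = 1 ∨ ε g = -1) ∧
      ∀ i, ‖∑ g, ((ε g : ℝ) : ℂ) • A g i‖ ≤ 10 ^ 5 * Real.sqrt (gf N (Fintype.card J))

/-! ### Group algebras -/

/-- **WED**: `ℂ[G]` is a product of matrix algebras. Proof: `MonoidAlgebra.Submodule.complementedLattice` /
the Maschke theorem in Mathlib gives `IsSemisimpleRing (MonoidAlgebra ℂ G)`, then
`IsSemisimpleRing.exists_algEquiv_pi_matrix_of_isAlgClosed`; the dimensions: `finrank`. -/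
def S_WED : Prop := ∀ (G : Type) [Group G] [Fintype G] [DecidableEq G],
  ∃ (k : ℕ) (d : Fin k → ℕ) (_ : MonoidAlgebra ℂ G ≃ₐ[ℂ]
      ((i : Fin k) → Matrix (Fin (d i)) (Fin (d i)) ℂ)),
    (∀ i, 0 < d i) ∧ ∑ i, d i ^ 2 = Fintype.card G

/-- **UNI**: unitarisation of one matrix representation. Proof: `h = ∑_g (ρ g)ᴴ ρ g` is positive definite
(`g = 1` gives `1`) and `(ρ a)ᴴ h ρ a = h` (reindex). Let `S = h^(1/2)` (`CFC.sqrt h`, or `h = Sᴴ S` with invertible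
`S`: `Matrix.posDef_iff_eq_conjTranspose_mul_self` ), then `T g = S (ρ g) S⁻¹` has `(T g)ᴴ T g =
S⁻¹ᴴ (ρ g)ᴴ Sᴴ S (ρ g) S⁻¹ = S⁻¹ᴴ h S⁻¹ = 1`. -/
def S_UNI : Prop := ∀ (G : Type) [Group G] [Fintype G] (d : ℕ)
  (ρ : G →* Matrix (Fin d) (Fin d) ℂ), ∃ S : (Matrix (Fin d) (Fin d) ℂ)ˣ,
    ∀ g : G, ((S : Matrix (Fin d) (Fin d) ℂ) * ρ g * ((S⁻¹ : (Matrix (Fin d) (Fin d) ℂ)ˣ) :
      Matrix (Fin d) (Fin d) ℂ))ᴴ * ((S : Matrix (Fin d) (Fin d) ℂ) * ρ g *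
        ((S⁻¹ : (Matrix (Fin d) (Fin d) ℂ)ˣ) : Matrix (Fin d) (Fin d) ℂ)) = 1

/-- the data of the group algebra: the group elements become unitary matrices -/
structure IsUnitaryModel (G : Type) [Group G] (k : ℕ) (d : Fin k → ℕ)
    (Ψ : MonoidAlgebra ℂ G ≃ₐ[ℂ] ((i : Fin k) → Matrix (Fin (d i)) (Fin (d i)) ℂ)) : Prop where
  pos : ∀ i, 0 < d i
  unitary : ∀ (g : G) (i : Fin k),
    (Ψ (MonoidAlgebra.single g 1) i)ᴴ * Ψ (MonoidAlgebra.single g 1) i = 1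

/-- **MOD** (uses WED, UNI). Proof: conjugate the `i`-th component of the isomorphism of WED by the `S` of UNI for
`ρ g = Φ (single g 1) i` (a monoid homomorphism); the result is again an algebra isomorphism. -/
def S_MOD : Prop := ∀ (G : Type) [Group G] [Fintype G] [DecidableEq G],
  ∃ (k : ℕ) (d : Fin k → ℕ) (Ψ : MonoidAlgebra ℂ G ≃ₐ[ℂ]
      ((i : Fin k) → Matrix (Fin (d i)) (Fin (d i)) ℂ)),
    IsUnitaryModel G k d Ψ ∧ ∑ i, d i ^ 2 = Fintype.card G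

/-- **TRM**: the trace of left multiplication on a product of matrix algebras is `∑ d_i Tr a_i`. Proof: it is linear
in `a`; or: `LinearMap.trace` on a pi type and `Matrix` = `d` copies of the column space; e.g. in the basis of matrix
units (`Matrix.stdBasis`, `Pi.basis`), the diagonal coefficient at `(i; u, v)` is `a_i u u`, summed over `u, v`. -/
def S_TRM : Prop := ∀ (k : ℕ) (d : Fin k → ℕ)
  (a : (i : Fin k) → Matrix (Fin (d i)) (Fin (d i)) ℂ),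
    LinearMap.trace ℂ ((i : Fin k) → Matrix (Fin (d i)) (Fin (d i)) ℂ)
      (LinearMap.mulLeft ℂ a) = ∑ i, (d i : ℂ) * (a i).trace

/-- **TRG**: the trace of left multiplication on the group algebra is `|G| a(1)`. Proof: in the basis `single g 1`
(`MonoidAlgebra` = `G →₀ ℂ`) the coefficient of `a * single g 1` at `g` is `a 1`. -/
def S_TRG : Prop := ∀ (G : Type) [Group G] [Fintype G] (a : MonoidAlgebra ℂ G),
    LinearMap.trace ℂ (MonoidAlgebra ℂ G) (LinearMap.mulLeft ℂ a) = (Fintype.card G : ℂ) * a.coeff 1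

/-- the adjoint in the group algebra: `a^*(g) = conj (a (g⁻¹))` -/
noncomputable def adj {G : Type} [Group G] [Fintype G] (a : MonoidAlgebra ℂ G) : MonoidAlgebra ℂ G :=
  ∑ g : G, MonoidAlgebra.single g (star (a.coeff g⁻¹))

/-- **ADJ**: `Ψ (a^*) i = (Ψ a i)ᴴ` and `(a^* a)(1) = ∑ |a g|²`. Proof: both sides of the first are conjugate
linear in `a`, for `a = single g 1`: `Ψ (single g⁻¹ 1) i` is the inverse of the unitary `Ψ (single g 1) i`, that is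
its conjugate transpose. Second: coefficient of a product at `1`. -/
def S_ADJ : Prop := ∀ (G : Type) [Group G] [Fintype G] (k : ℕ) (d : Fin k → ℕ)
  (Ψ : MonoidAlgebra ℂ G ≃ₐ[ℂ] ((i : Fin k) → Matrix (Fin (d i)) (Fin (d i)) ℂ)),
  IsUnitaryModel G k d Ψ → ∀ a : MonoidAlgebra ℂ G,
    (∀ i, Ψ (adj a) i = (Ψ a i)ᴴ) ∧ ((adj a * a).coeff 1 = ((∑ g, ‖a.coeff g‖ ^ 2 : ℝ) : ℂ))

/-- **PLA** (Plancherel; uses TRM, TRG, ADJ). Proof: the trace of left multiplication by `a^* a` computed in both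
algebras (`LinearMap.trace_conj'` with the linear equivalence `Ψ`): `|G| ∑|a g|² = ∑ d_i Tr((Ψ a i)ᴴ Ψ a i)`. -/
def S_PLA : Prop := ∀ (G : Type) [Group G] [Fintype G] (k : ℕ) (d : Fin k → ℕ)
  (Ψ : MonoidAlgebra ℂ G ≃ₐ[ℂ] ((i : Fin k) → Matrix (Fin (d i)) (Fin (d i)) ℂ)),
  IsUnitaryModel G k d Ψ → ∀ a : MonoidAlgebra ℂ G,
    (Fintype.card G : ℝ) * ∑ g, ‖a.coeff g‖ ^ 2 =
      ∑ i, (d i : ℝ) * (Matrix.trace ((Ψ a i)ᴴ * Ψ a i)).re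

/-- the matrix of the left convolution with `x` -/
def conv {G : Type} [Group G] (x : G → ℂ) : Matrix G G ℂ := Matrix.of fun h k => x (h * k⁻¹)

/-- the element of the group algebra with the coefficients `x` -/
noncomputable def elt {G : Type} [Group G] [Fintype G] (x : G → ℂ) : MonoidAlgebra ℂ G :=
  ∑ g : G, MonoidAlgebra.single g (x g)

/-- **HS**: `Re Tr((XY)ᴴ (XY)) ≤ ‖X‖² Re Tr(Yᴴ Y)` (the trace is the sum of the squared Euclidean norms of the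
columns), and for a vector `u` the matrix `Y` with first column `u` and the others `0` has
`Re Tr(Yᴴ Y) = ∑ |u j|²`, `X Y` has the first column `X u`. -/
def S_HS : Prop := ∀ (d : ℕ) (X Y : Matrix (Fin d) (Fin d) ℂ),
  (Matrix.trace ((X * Y)ᴴ * (X * Y))).re ≤ ‖X‖ ^ 2 * (Matrix.trace (Yᴴ * Y)).re ∧
  ∀ (c : ℝ), 0 ≤ c → 0 < d → (∀ Z : Matrix (Fin d) (Fin d) ℂ,
    (Matrix.trace ((X * Z)ᴴ * (X * Z))).re ≤ c ^ 2 * (Matrix.trace (Zᴴ * Z)).re) → ‖X‖ ≤ c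

/-- **NRM** (uses PLA, HS): the norm of the convolution operator is the maximum of the norms of the blocks. Proof:
for `v : G → ℂ` the vector `conv x *ᵥ v` has the coefficients of `elt x * elt v`. First part: by PLA and HS,
`|G| ‖x v‖² = ∑ d_i Tr((Ψx_i Ψv_i)ᴴ (Ψx_i Ψv_i)) ≤ c² ∑ d_i Tr(Ψv_iᴴ Ψv_i) = c² |G| ‖v‖²`. Second part: for `i` and
`Z` let `v` have `Ψ v = Z` at `i` and `0` elsewhere (`Ψ` is bijective); PLA gives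
`d_i Tr((Ψx_i Z)ᴴ (Ψx_i Z)) = |G| ‖x v‖² ≤ ‖conv x‖² |G| ‖v‖² = ‖conv x‖² d_i Tr(Zᴴ Z)`; conclude with HS. -/
def S_NRM : Prop := ∀ (G : Type) [Group G] [Fintype G] [DecidableEq G] (k : ℕ) (d : Fin k → ℕ)
  (Ψ : MonoidAlgebra ℂ G ≃ₐ[ℂ] ((i : Fin k) → Matrix (Fin (d i)) (Fin (d i)) ℂ)),
  IsUnitaryModel G k d Ψ → ∀ x : G → ℂ,
    (∀ c : ℝ, 0 ≤ c → (∀ i, ‖Ψ (elt x) i‖ ≤ c) → ‖conv x‖ ≤ c) ∧ ∀ i, ‖Ψ (elt x) i‖ ≤ ‖conv x‖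

end Pool.Agent.Q98.SPN
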